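import Mathlib
import Pool.Agent.H19.Sup.V3

set_option autoImplicit false

/-!
# van der Corput's `k`-th derivative test with the explicit saving `N ^ (-2 ^ (-k-1))`

`Tst k α β c`: the test of order `k` for `λ ∈ [N^(-β), N^(-α)]` saves `N^c`.
One differencing step with `H = N^η`, the shifts `h < N^σ` being estimated trivially, gives
`Tst k α β c → Tst (k+1) (α+η) (β+σ) (min (η-σ) c / 2)`.
-/

namespace Pool.Agent.H36.XD

open Pool.Agent.H19.Sup

/-- the test of order `k` for `λ ∈ [N^(-β), N^(-α)]` -/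
def Tst (k : ℕ) (α β c : ℝ) : Prop :=
  ∃ C : ℝ, 0 < C ∧ ∀ (f : ℕ → ℝ → ℝ) (A B N lam eps R : ℝ), 1 ≤ N → A ≤ B →
      B - A ≤ N → 0 < eps → eps ≤ 1 → 1 ≤ R → N ^ (-β) ≤ lam → lam ≤ N ^ (-α) →
      (∀ i ≤ k, ∀ x ∈ Set.Icc A B, HasDerivAt (f i) (f (i + 1) x) x) →
      (∀ x ∈ Set.Icc A B, eps * lam ≤ |f k x| ∧ |f k x| ≤ R * lam) →
      (∀ x ∈ Set.Icc A B, |f (k + 1) x| ≤ R * lam / N) →
      ‖∑ n ∈ Finset.Icc ⌈A⌉ ⌊B⌋, ee (f 0 n)‖ ≤ C * (R / eps ^ 2) * N ^ (1 - c)

theorem Tst.mono {k : ℕ} {α β c α' β' c' : ℝ} (h : Tst k α β c) (hα : α ≤ α') (hβ : β' ≤ β)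
    (hc : c' ≤ c) : Tst k α' β' c' := by
  obtain ⟨C, hC, h⟩ := h
  refine ⟨C, hC, ?_⟩
  intro f A B N lam eps R hN hAB hBA heps heps1 hR hl1 hl2 hd h1 h2
  have hN0 : 0 < N := by linarith
  have hRe := V3_one_le heps heps1 hR
  refine (h f A B N lam eps R hN hAB hBA heps heps1 hR
    ((Real.rpow_le_rpow_of_exponent_le hN (by linarith)).trans hl1)
    (hl2.trans (Real.rpow_le_rpow_of_exponent_le hN (by linarith))) hd h1 h2).trans ?_
  have h4 : N ^ (1 - c) ≤ N ^ (1 - c') := Real.rpow_le_rpow_of_exponent_le hN (by linarith)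
  gcongr

theorem Tst.union {k : ℕ} {α β c α' β' c' : ℝ} (h : Tst k α β c) (h' : Tst k α' β' c')
    (hov : α' ≤ β) : Tst k α β' (min c c') := by
  obtain ⟨C, hC, h⟩ := h.mono le_rfl le_rfl (min_le_left c c')
  obtain ⟨C', hC', h'⟩ := h'.mono le_rfl le_rfl (min_le_right c c')
  refine ⟨C + C', by positivity, ?_⟩
  intro f A B N lam eps R hN hAB hBA heps heps1 hR hl1 hl2 hd h1 h2
  have hN0 : 0 < N := by linarith
  have hRe := V3_one_le heps heps1 hR
  have hp : 0 < N ^ (1 - min c c') := Real.rpow_pos_of_pos hN0 _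
  rcases le_or_gt (N ^ (-β)) lam with hcase | hcase
  · refine (h f A B N lam eps R hN hAB hBA heps heps1 hR hcase hl2 hd h1 h2).trans ?_
    gcongr
    linarith
  · refine (h' f A B N lam eps R hN hAB hBA heps heps1 hR hl1
      (hcase.le.trans (Real.rpow_le_rpow_of_exponent_le hN (by linarith))) hd h1 h2).trans ?_
    gcongr
    linarith

theorem Tst.base {γ : ℝ} (hγ : 0 < γ) (hγ1 : γ ≤ 1 / 2) : Tst 1 γ (1 - γ) γ := by
  refine ⟨4, by norm_num, ?_⟩
  intro f A B N lam eps R hN hAB hBA heps heps1 hR hl1 hl2 hd h1 h2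
  have hN0 : 0 < N := by linarith
  have hl1 : N ^ (-1 + γ) ≤ lam := by
    have : -(1 - γ) = -1 + γ := by ring
    rwa [this] at hl1
  have hlam : 0 < lam := lt_of_lt_of_le (Real.rpow_pos_of_pos hN0 _) hl1
  have hNγ : N ^ (-γ) ≤ 1 := Real.rpow_le_one_of_one_le_of_nonpos hN (by linarith)
  have hRe := V3_one_le heps heps1 hR
  have hpow : N ^ (1 - γ) = N * N ^ (-γ) := by
    rw [sub_eq_add_neg, Real.rpow_add hN0, Real.rpow_one]
  have hpow0 : 0 < N ^ (1 - γ) := Real.rpow_pos_of_pos hN0 _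
  rcases le_or_gt (R * lam) (1 / 2) with hc | hc
  · have hb := vdc_base (f 0) (f 1) (f 2) (δ := eps * lam) (τ := R * lam / N) hAB
      (by positivity) (by positivity) (fun x hx => hd 0 (by omega) x hx)
      (fun x hx => hd 1 le_rfl x hx)
      (fun x hx => ⟨(h1 x hx).1, (h1 x hx).2.trans hc⟩) h2
    refine hb.trans ?_
    have hinv : 1 / lam ≤ N ^ (1 - γ) := by
      rw [div_le_iff₀ hlam]
      calc (1 : ℝ) = N ^ (1 - γ) * N ^ (-1 + γ) := by
            rw [← Real.rpow_add hN0]; norm_num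
        _ ≤ N ^ (1 - γ) * lam := mul_le_mul_of_nonneg_left hl1 hpow0.le
    have e1 : (1 : ℝ) ≤ (R / eps ^ 2) * (1 / lam) := by
      have : 1 ≤ 1 / lam := by
        rw [le_div_iff₀ hlam]; linarith
      nlinarith
    have e2 : 1 / (2 * (eps * lam)) ≤ (R / eps ^ 2) * (1 / lam) := by
      have h3 : 1 / (2 * (eps * lam)) = (1 / (2 * eps)) * (1 / lam) := by
        field_simp
      rw [h3]
      apply mul_le_mul_of_nonneg_right _ (by positivity)
      rw [div_le_div_iff₀ (by positivity) (by positivity)]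
      nlinarith
    have e3 : (B - A) * (R * lam / N) / (eps * lam) ^ 2 ≤ (R / eps ^ 2) * (1 / lam) := by
      have h3 : (R / eps ^ 2) * (1 / lam) = N * (R * lam / N) / (eps * lam) ^ 2 := by
        field_simp
      rw [h3]
      apply div_le_div_of_nonneg_right _ (by positivity)
      exact mul_le_mul_of_nonneg_right hBA (by positivity)
    calc 1 + 1 / (2 * (eps * lam)) + (B - A) * (R * lam / N) / (eps * lam) ^ 2
        ≤ 4 * (R / eps ^ 2) * (1 / lam) := by
          have : 0 ≤ (R / eps ^ 2) * (1 / lam) := by positivity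
          linarith
      _ ≤ 4 * (R / eps ^ 2) * N ^ (1 - γ) :=
          mul_le_mul_of_nonneg_left hinv (by positivity)
  · have ht := V3_trivial (fun n => f 0 n) hN hBA
    refine ht.trans ?_
    have e1 : lam * N ≤ N ^ (1 - γ) := by
      rw [hpow, mul_comm]
      exact mul_le_mul_of_nonneg_left hl2 hN0.le
    have e2 : R ≤ R / eps ^ 2 := by
      rw [le_div_iff₀ (by positivity)]
      have : eps ^ 2 ≤ 1 := by nlinarith
      nlinarith
    calc 2 * N ≤ 4 * (R * lam) * N := by nlinarith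
      _ = 4 * R * (lam * N) := by ring
      _ ≤ 4 * (R / eps ^ 2) * N ^ (1 - γ) := by
        apply mul_le_mul _ e1 (by positivity) (by positivity)
        linarith

theorem Tst.step {k : ℕ} {α β c : ℝ} (h : Tst k α β c) {η σ : ℝ} (hσ : 0 ≤ σ)
    (hση : σ ≤ η) (hη : η ≤ 1) : Tst (k + 1) (α + η) (β + σ) (min (η - σ) c / 2) := by
  obtain ⟨C', hC', h'⟩ := h
  refine ⟨36 + 6 * C', by linarith, ?_⟩
  intro f A B N lam eps R hN hAB hBA heps heps1 hR hl1 hl2 hd h1 h2
  have hN0 : 0 < N := by linarith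
  have hlam : 0 < lam := lt_of_lt_of_le (Real.rpow_pos_of_pos hN0 _) hl1
  have hRe := V3_one_le heps heps1 hR
  have hcc2 : min (η - σ) c / 2 ≤ (η - σ) / 2 := by
    have := min_le_left (η - σ) c; linarith
  have hcc3 : min (η - σ) c / 2 ≤ c / 2 := by
    have := min_le_right (η - σ) c; linarith
  generalize min (η - σ) c / 2 = c'' at hcc2 hcc3 ⊢
  have hpc0 : 0 < N ^ (1 - c'') := Real.rpow_pos_of_pos hN0 _
  set H : ℕ := ⌊N ^ η⌋₊ with hHdef
  have hNg1 : 1 ≤ N ^ η := Real.one_le_rpow hN (by linarith)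
  have hH1 : 1 ≤ H := Nat.one_le_floor_iff _ |>.mpr hNg1
  have hHle : (H : ℝ) ≤ N ^ η := Nat.floor_le (by linarith)
  have hHge : N ^ η ≤ 2 * H := by
    have h3 := Nat.lt_floor_add_one (N ^ η)
    have h4 : (1 : ℝ) ≤ H := by exact_mod_cast hH1
    rw [← hHdef] at h3
    linarith
  have hHN : (H : ℝ) ≤ N := by
    refine hHle.trans ?_
    calc N ^ η ≤ N ^ (1 : ℝ) := Real.rpow_le_rpow_of_exponent_le hN hη
      _ = N := Real.rpow_one N
  have hH0 : (0 : ℝ) < H := by exact_mod_cast hH1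
  have hM1 : 1 ≤ N ^ σ := Real.one_le_rpow hN hσ
  set D : ℝ := C' * (R / eps ^ 2) * N ^ (1 - c) with hD
  have hD0 : 0 ≤ D := by positivity
  set E : ℕ → ℝ := fun h => if (h : ℝ) < N ^ σ then 2 * N else D with hE
  have hE0 : ∀ h, 0 ≤ E h := by
    intro h
    simp only [hE]
    split_ifs
    · positivity
    · exact hD0
  have key := V3_diff (f 0) hN hBA hH1 hHN E hE0 (by
    intro h hh hAh
    rw [Finset.mem_Icc] at hh
    have hh0 : (0 : ℝ) < h := by exact_mod_cast hh.1
    simp only [hE]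
    split_ifs with hsm
    · exact V3_trivial (fun n : ℤ => f 0 ((n : ℝ) + h) - f 0 n) hN (by linarith)
    · rw [not_lt] at hsm
      have hhH : (h : ℝ) ≤ N ^ η := by
        refine le_trans ?_ hHle
        exact_mod_cast (by omega : h ≤ H)
      obtain ⟨g1, g2, g3⟩ := V3_hyp hd h1 h2 hh0
      exact h' (fun i x => f i (x + h) - f i x) A (B - h) N (h * lam) eps R hN hAh
        (by linarith) heps heps1 hR
        (by
          calc N ^ (-β) = N ^ σ * N ^ (-(β + σ)) := by
                rw [← Real.rpow_add hN0]; congr 1; ring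
            _ ≤ h * lam := mul_le_mul hsm hl1 (by positivity) hh0.le)
        (by
          calc h * lam ≤ N ^ η * N ^ (-(α + η)) :=
                mul_le_mul hhH hl2 hlam.le (by positivity)
            _ = N ^ (-α) := by
                rw [← Real.rpow_add hN0]; congr 1; ring)
        g1 g2 g3)
  have hsum : ∑ h ∈ Finset.Icc 1 (H - 1), E h ≤ N ^ σ * (2 * N) + H * D := by
    have h3 : ∀ h ∈ Finset.Icc 1 (H - 1), E h ≤
        (if (h : ℝ) < N ^ σ then 2 * N else 0) + D := by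
      intro h _
      simp only [hE]
      split_ifs
      · linarith
      · linarith
    refine (Finset.sum_le_sum h3).trans ?_
    rw [Finset.sum_add_distrib]
    apply add_le_add
    · rw [← Finset.sum_filter, Finset.sum_const, nsmul_eq_mul]
      apply mul_le_mul_of_nonneg_right _ (by positivity)
      have h4 : (Finset.Icc 1 (H - 1)).filter (fun h : ℕ => (h : ℝ) < N ^ σ) ⊆
          Finset.Icc 1 ⌊N ^ σ⌋₊ := by
        intro h hh
        rw [Finset.mem_filter, Finset.mem_Icc] at hh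
        rw [Finset.mem_Icc]
        exact ⟨hh.1.1, Nat.le_floor hh.2.le⟩
      have h5 := Finset.card_le_card h4
      rw [Nat.card_Icc, Nat.add_sub_cancel] at h5
      calc (((Finset.Icc 1 (H - 1)).filter
            (fun h : ℕ => (h : ℝ) < N ^ σ)).card : ℝ)
          ≤ (⌊N ^ σ⌋₊ : ℝ) := by exact_mod_cast h5
        _ ≤ N ^ σ := Nat.floor_le (by linarith)
    · rw [Finset.sum_const, nsmul_eq_mul, Nat.card_Icc]
      apply mul_le_mul_of_nonneg_right _ hD0
      exact_mod_cast (by omega : H - 1 + 1 - 1 ≤ H)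
  have hP : N ^ (1 - c'') * N ^ (1 - c'') = N ^ (2 - 2 * c'') := by
    rw [← Real.rpow_add hN0]; congr 1; ring
  have hP0 : 0 < N ^ (2 - 2 * c'') := Real.rpow_pos_of_pos hN0 _
  have hstep : 2 * N + 2 * ∑ h ∈ Finset.Icc 1 (H - 1), E h ≤
      6 * (N * N ^ σ) + 2 * (H * D) := by
    have h3 : N ≤ N * N ^ σ := by nlinarith
    linarith
  -- first part
  have e1 : 3 * N / H * (6 * (N * N ^ σ)) ≤ 36 * N ^ (2 - 2 * c'') := by
    have h3 : N * N * N ^ σ = N ^ (2 - η + σ) * N ^ η := by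
      have h6 : N * N = N ^ (2 : ℝ) := by rw [Real.rpow_two]; ring
      rw [h6, ← Real.rpow_add hN0, ← Real.rpow_add hN0]; congr 1; ring
    have h4 : N ^ (2 - η + σ) ≤ N ^ (2 - 2 * c'') :=
      Real.rpow_le_rpow_of_exponent_le hN (by linarith)
    have h5 : 0 < N ^ (2 - η + σ) := Real.rpow_pos_of_pos hN0 _
    calc 3 * N / H * (6 * (N * N ^ σ)) = 18 * (N * N * N ^ σ) / H := by
          ring
      _ = 18 * (N ^ (2 - η + σ) * N ^ η) / H := by rw [h3]
      _ ≤ 18 * (N ^ (2 - η + σ) * (2 * H)) / H := by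
          apply div_le_div_of_nonneg_right _ hH0.le
          apply mul_le_mul_of_nonneg_left _ (by norm_num)
          exact mul_le_mul_of_nonneg_left hHge h5.le
      _ = 36 * N ^ (2 - η + σ) := by field_simp; ring
      _ ≤ 36 * N ^ (2 - 2 * c'') := by linarith
  have e2 : 3 * N / H * (2 * (H * D)) ≤ 6 * C' * (R / eps ^ 2) * N ^ (2 - 2 * c'') := by
    have h3 : N * N ^ (1 - c) = N ^ (2 - c) := by
      nth_rewrite 1 [← Real.rpow_one N]
      rw [← Real.rpow_add hN0]; congr 1; ring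
    have h4 : N ^ (2 - c) ≤ N ^ (2 - 2 * c'') :=
      Real.rpow_le_rpow_of_exponent_le hN (by linarith)
    calc 3 * N / H * (2 * (H * D)) = 6 * C' * (R / eps ^ 2) * (N * N ^ (1 - c)) := by
          rw [hD]; field_simp; ring
      _ = 6 * C' * (R / eps ^ 2) * N ^ (2 - c) := by rw [h3]
      _ ≤ _ := mul_le_mul_of_nonneg_left h4 (by positivity)
  have hfin : ‖∑ n ∈ Finset.Icc ⌈A⌉ ⌊B⌋, ee (f 0 n)‖ ^ 2 ≤
      (36 + 6 * C') * (R / eps ^ 2) * N ^ (2 - 2 * c'') := by
    refine key.trans ?_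
    have h5 : 0 ≤ 3 * N / H := by positivity
    have h6 := mul_le_mul_of_nonneg_left hstep h5
    refine h6.trans ?_
    have h4 : 36 * N ^ (2 - 2 * c'') ≤ 36 * (R / eps ^ 2) * N ^ (2 - 2 * c'') := by
      nlinarith
    calc 3 * N / H * (6 * (N * N ^ σ) + 2 * (H * D))
        = 3 * N / H * (6 * (N * N ^ σ)) + 3 * N / H * (2 * (H * D)) := by ring
      _ ≤ 36 * (R / eps ^ 2) * N ^ (2 - 2 * c'') + 6 * C' * (R / eps ^ 2) * N ^ (2 - 2 * c'') :=
          add_le_add (e1.trans h4) e2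
      _ = _ := by ring
  apply abs_le_of_sq_le_sq' _ (by positivity) |>.2
  refine hfin.trans ?_
  have hD : 1 ≤ (36 + 6 * C') * (R / eps ^ 2) := by nlinarith
  calc (36 + 6 * C') * (R / eps ^ 2) * N ^ (2 - 2 * c'')
      ≤ ((36 + 6 * C') * (R / eps ^ 2)) ^ 2 * N ^ (2 - 2 * c'') := by
        apply mul_le_mul_of_nonneg_right _ hP0.le
        nlinarith
    _ = ((36 + 6 * C') * (R / eps ^ 2) * N ^ (1 - c'')) ^ 2 := by
        rw [← hP]; ring

theorem tst2 : Tst 2 (1 / 2) (3 / 2) (1 / 8) := by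
  have h0 : Tst 1 (1 / 4) (3 / 4) (1 / 4) := by
    have := Tst.base (γ := 1 / 4) (by norm_num) (by norm_num)
    exact this.mono le_rfl (by norm_num) le_rfl
  have h1 := h0.step (η := 1 / 4) (σ := 0) (by norm_num) (by norm_num) (by norm_num)
  have h2 := h0.step (η := 1 / 2) (σ := 1 / 4) (by norm_num) (by norm_num) (by norm_num)
  have h3 := h0.step (η := 3 / 4) (σ := 1 / 2) (by norm_num) (by norm_num) (by norm_num)
  have h4 := h0.step (η := 1) (σ := 3 / 4) (by norm_num) (by norm_num) (by norm_num)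
  have h := ((h1.union h2 (by norm_num)).union h3 (by norm_num)).union h4 (by norm_num)
  exact h.mono (by norm_num) (by norm_num) (by norm_num)

theorem tst3 : Tst 3 (5 / 8) (19 / 8) (1 / 16) := by
  have h1 := tst2.step (η := 1 / 8) (σ := 0) (by norm_num) (by norm_num) (by norm_num)
  have h2 := tst2.step (η := 1) (σ := 7 / 8) (by norm_num) (by norm_num) (by norm_num)
  have h := h1.union h2 (by norm_num)
  exact h.mono (by norm_num) (by norm_num) (by norm_num)

theorem tst4 : Tst 4 (11 / 16) (53 / 16) (1 / 32) := by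
  have h1 := tst3.step (η := 1 / 16) (σ := 0) (by norm_num) (by norm_num) (by norm_num)
  have h2 := tst3.step (η := 1) (σ := 15 / 16) (by norm_num) (by norm_num) (by norm_num)
  have h := h1.union h2 (by norm_num)
  exact h.mono (by norm_num) (by norm_num) (by norm_num)

theorem tst_aux (k : ℕ) (hk : 4 ≤ k) :
    Tst k (3 / 4 - (1 / 2) ^ k) 3 ((1 / 2) ^ (k + 1)) := by
  induction k, hk using Nat.le_induction with
  | base => exact tst4.mono (by norm_num) (by norm_num) (by norm_num)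
  | succ k hk ih =>
    have hp : (0 : ℝ) < (1 / 2) ^ (k + 1) := by positivity
    have hp1 : ((1 : ℝ) / 2) ^ (k + 1) ≤ 1 := pow_le_one₀ (by norm_num) (by norm_num)
    have h1 := ih.step (η := (1 / 2) ^ (k + 1)) (σ := 0) le_rfl hp.le hp1
    refine h1.mono ?_ (by norm_num) ?_
    · have : ((1 : ℝ) / 2) ^ k = 2 * (1 / 2) ^ (k + 1) := by rw [pow_succ]; ring
      rw [this]
      linarith
    · rw [sub_zero, min_self, pow_succ]
      linarith

/-- the `k`-th derivative test for `λ ∈ [N^(-3), N^(-3/4)]` -/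
theorem tst (k : ℕ) (hk : 4 ≤ k) : Tst k (3 / 4) 3 ((1 / 2) ^ (k + 1)) := by
  have hp : (0 : ℝ) < (1 / 2) ^ k := by positivity
  exact (tst_aux k hk).mono (by linarith) le_rfl le_rfl

end Pool.Agent.H36.XD
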