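import Mathlib
import Pool.Agent.H19.Sup.St
import Pool.Agent.H36.XD.V
import Pool.Agent.H19.Maass.Defs

set_option autoImplicit false
set_option linter.unusedVariables false

/-!
# St: the statements of the project XD (explicit exponent below 5/12)

Every main step of `Pool.Agent.H19.Sup` again, with explicit exponents.  The numbers:
`2^(-14)` = saving of the 13th derivative test, relative to the length of the block; blocks of length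
`≥ N^(7/8 - 1/50)` on a line of `N` points; hence `1/19000`.  A line of a plane has `≥ √N / 40` points:
`1/40000` for a plane.  `1/250000` for the amplified sum, `10^(-7)` in the final theorem.
-/

namespace Pool.Agent.H36.XD

open UpperHalfPlane Polynomial
open Pool.Agent.H19.Maass Pool.Agent.H19.Sup
open scoped MatrixGroups ComplexConjugate ENNReal

/-- nondegeneracy with explicit exponent -/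
def NondegX : Prop :=
  ∀ (j : ℕ),
    ∃ K : ℝ, 0 < K ∧ ∀ (p : Par) (μ : ℝ), p.Good μ →
    ∀ (g ε : ℝ), 0 < g → g ≤ 1 → 0 ≤ ε → ∀ u : Fin (16 * j + 7) → ℝ, (∀ i, |u i| ≤ 40) →
    (∀ i l, i ≠ l → g ≤ |u i - u l|) → (∀ i, 0 < p.n.eval (u i)) →
    (∀ i, 0 < p.R1.eval (u i)) → (∀ i, 0 < p.R2.eval (u i)) →
    (∀ i, |p.H (j + 1) (u i)| ≤ ε) → μ ^ (34 * j + 15) * g ^ (16 * j + 6) ≤ K * ε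

/-- a block of length at most `l`, `1 ≤ l ≤ N`, on which the `k`-th derivative has almost constant size `h` -/
def GoodBlockX : Prop :=
  ∀ (k : ℕ), 4 ≤ k →
    ∃ (K : ℝ), 0 < K ∧
    ∀ (p : Par) (μ : ℝ), p.Good μ → ∀ (A : ℝ → ℂ) (B0 B1 ρ₀ ρ h T N l u0 : ℝ) (a b : ℤ),
    Amp A B0 B1 ρ₀ → 0 < ρ → ρ ≤ 1 → 0 < h → 1 ≤ l → l ≤ N → a ≤ b → ((b - a : ℤ) : ℝ) ≤ l →
    l * (ρ⁻¹) ^ (2 * k + 1) ≤ N * h →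
    l ^ (-(3 : ℝ)) ≤ T * h / (2 * Real.pi * N ^ k) → T * h / (2 * Real.pi * N ^ k) ≤ l ^ (-(3 / 4) : ℝ) →
    (∀ t : ℝ, (a : ℝ) ≤ t → t ≤ b → |u0 + t / N| ≤ 40 ∧ 1 ≤ p.n.eval (u0 + t / N) ∧
      ρ ^ 2 ≤ p.R1.eval (u0 + t / N) ∧ ρ ^ 2 ≤ p.R2.eval (u0 + t / N) ∧
      h / 2 ≤ |p.H k (u0 + t / N)| ∧ |p.H k (u0 + t / N)| ≤ 2 * h) →
    ‖∑ n ∈ Finset.Icc a b, p.term A T N u0 n‖ ≤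
      K * (B0 * (B0 + B1 * (l / N))) * l ^ (1 - (1 / 2) ^ (k + 1) : ℝ)

/-- the sum over a line of `N` points -/
def LineSumX : Prop :=
  ∀ (k : ℕ), 4 ≤ k → k ≤ 13 →
    ∃ (K : ℝ), 0 < K ∧
    ∀ (p : Par) (μ : ℝ), p.Good μ → ∀ (A : ℝ → ℂ) (B0 B1 ρ T N u0 : ℝ) (na nb : ℤ),
    Amp A B0 B1 ρ → 0 < ρ → ρ ≤ 1 → 1 ≤ N →
    N ^ (-(1 / 5000) : ℝ) ≤ μ → N ^ (-(1 / 5000) : ℝ) ≤ ρ →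
    N ^ (-2 : ℝ) ≤ T / (2 * Real.pi * N ^ k) → T / (2 * Real.pi * N ^ k) ≤ N ^ (-(9 / 10) : ℝ) →
    (∀ n : ℤ, na ≤ n → n ≤ nb → |u0 + n / N| ≤ 40 ∧ 1 ≤ p.n.eval (u0 + n / N)) →
    ‖∑ n ∈ Finset.Icc na nb, p.term A T N u0 n‖ ≤
      K * (B0 ^ 2 * N ^ (-(1 / 19000) : ℝ) + B0 * B1 * N ^ (-(1 / 20) : ℝ)) * N

/-- a line of a plane; `Q = N / max s (|j| / (y N))` is its number of points up to a constant -/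
def PlaneLineX : Prop :=
  ∃ (K : ℝ), 0 < K ∧
    ∀ (A : ℝ → ℂ) (B0 B1 ρ T μ : ℝ) (N : ℕ) (M : ℤ) (X Y X' Y' y : ℝ) (a s j : ℤ),
    Amp A B0 B1 ρ → 0 < ρ → ρ ≤ 1 → 0 < μ → μ ≤ 1 → 1 ≤ N →
    (N : ℝ) ^ (-(1 / 20000) : ℝ) ≤ μ → (N : ℝ) ^ (-(1 / 20000) : ℝ) ≤ ρ →
    (N : ℝ) ^ 7 ≤ T ^ 2 → 1 ≤ T → T ≤ (N : ℝ) ^ 6 →
    0 < Y → 0 < Y' → 0 < y → μ ^ 2 * (Y * Y') ≤ (X - X') ^ 2 + (Y - Y') ^ 2 →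
    (∀ q ∈ Finset.Ioc N (4 * N), ∀ b : ℤ, dh X Y y ((b : ℝ) / q) < 1 / 2 → |b| ≤ M) →
    1 ≤ s → IsCoprime a s → μ * (s * y * N) ≤ |(j : ℝ)| →
    √(N : ℝ) / 40 ≤ N / max (s : ℝ) (|(j : ℝ)| / (y * N)) →
    ‖LS A T N M X Y X' Y' y a s j‖ ≤
      K * (B0 ^ 2 * ((N : ℝ) / max (s : ℝ) (|(j : ℝ)| / (y * N))) ^ (-(1 / 19000) : ℝ) +
        B0 * B1 * ((N : ℝ) / max (s : ℝ) (|(j : ℝ)| / (y * N))) ^ (-(1 / 20) : ℝ)) *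
        ((N : ℝ) / max (s : ℝ) (|(j : ℝ)| / (y * N)))

def PlaneSumX : Prop :=
  ∃ (K : ℝ), 0 < K ∧
    ∀ (A : ℝ → ℂ) (B0 B1 ρ T μ : ℝ) (N : ℕ) (M : ℤ) (X Y X' Y' y : ℝ),
    Amp A B0 B1 ρ → 0 < ρ → ρ ≤ 1 → 0 < μ → μ ≤ 1 → 1 ≤ N →
    (N : ℝ) ^ (-(1 / 20000) : ℝ) ≤ μ → (N : ℝ) ^ (-(1 / 20000) : ℝ) ≤ ρ →
    (N : ℝ) ^ 7 ≤ T ^ 2 → 1 ≤ T → T ≤ (N : ℝ) ^ 6 →
    0 < Y → 0 < Y' → 1 / (20 * N : ℝ) ≤ y → y ≤ 1 →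
    μ ^ 2 * (Y * Y') ≤ (X - X') ^ 2 + (Y - Y') ^ 2 →
    (∀ q ∈ Finset.Ioc N (4 * N), ∀ b : ℤ, dh X Y y ((b : ℝ) / q) < 1 / 2 → |b| ≤ M) →
    ‖PS A T N M X Y X' Y' y‖ ≤ K * ((N : ℝ) ^ 2 * y) *
      (B0 ^ 2 * (μ + (N : ℝ) ^ (-(1 / 40000) : ℝ)) + B0 * B1 * (N : ℝ) ^ (-(1 / 50) : ℝ))

def AllPlanesX : Prop :=
  ∀ Y0 : ℝ, ∃ K : ℝ, 0 < K ∧
    ∀ (A : ℝ → ℂ) (B0 B1 ρ T μ : ℝ) (N : ℕ) (M : ℤ) (w w' z : ℍ),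
    Amp A B0 B1 ρ → 0 < ρ → ρ ≤ 1 → 0 < μ → μ ≤ 1 → 1 ≤ N →
    (N : ℝ) ^ (-(1 / 20000) : ℝ) ≤ μ → (N : ℝ) ^ (-(1 / 20000) : ℝ) ≤ ρ →
    (N : ℝ) ^ 7 ≤ T ^ 2 → 1 ≤ T → T ≤ (N : ℝ) ^ 6 →
    1 / 2 ≤ z.im → z.im ≤ Y0 → 1 / 2 ≤ w.im → 1 / 2 ≤ w'.im → μ ≤ dist w w' →
    ∀ G : Finset ((ℤ × ℤ) × (ℤ × ℤ)),
    (∀ g ∈ G, IsCoprime g.1.1 g.1.2 ∧ IsCoprime g.2.1 g.2.2 ∧ 1 / (20 * N : ℝ) ≤ ht g.2 z) →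
    (∀ g ∈ G, ∀ q ∈ Finset.Ioc N (4 * N), ∀ b : ℤ, dist w (VV g.1 g.2 q b z) < 1 / 2 → |b| ≤ M) →
    ‖∑ g ∈ G, ZZ A T N M w w' z g.1 g.2‖ ≤ K * (N : ℝ) ^ 3 *
      (B0 ^ 2 * (μ + (N : ℝ) ^ (-(1 / 40000) : ℝ)) + B0 * B1 * (N : ℝ) ^ (-(1 / 50) : ℝ))

def FarBoundX : Prop :=
  ∀ Y0 ε : ℝ, 0 < ε → ∃ K : ℝ, 0 < K ∧
    ∀ (A : ℝ → ℂ) (B0 B1 ρ T μ h0 : ℝ) (N : ℕ) (z : ℍ) (S : Finset SL(2, ℤ)),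
    Amp A B0 B1 ρ → 0 < ρ → ρ ≤ 1 → μ ≤ 1 → 2 ≤ h0 → 9 * h0 ≤ N → 20 * Y0 < N → 1 ≤ N →
    (N : ℝ) ^ (-(1 / 20000) : ℝ) ≤ μ → (N : ℝ) ^ (-(1 / 20000) : ℝ) ≤ ρ →
    (N : ℝ) ^ 7 ≤ T ^ 2 → 1 ≤ T → T ≤ (N : ℝ) ^ 6 →
    |z.re| ≤ 1 / 2 → 1 / 2 ≤ z.im → z.im ≤ Y0 →
    (∀ i ∈ II N, ∀ j ∈ II N, ∀ σ : SL(2, ℤ), dist (zt z i) (σ • zt z j) ≤ 1 / 2 → σ ∈ S) →
    ‖FF A T N z S‖ ≤ K * (N : ℝ) ^ 4 * (B0 / h0 +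
      √((1 + Real.log h0) * ((N : ℝ) ^ ε * μ ^ 2 * B0 ^ 2 +
        B0 ^ 2 * (μ + (N : ℝ) ^ (-(1 / 40000) : ℝ)) + B0 * B1 * (N : ℝ) ^ (-(1 / 50) : ℝ))))

def SmallImprovedX : Prop :=
  ∀ Y0 ε : ℝ, 0 < ε → ∃ K : ℝ, 0 < K ∧
    ∀ (N : ℕ) (T : ℝ), 1 ≤ N → (N : ℝ) ^ 7 ≤ T ^ 2 → 1 ≤ T → T ≤ (N : ℝ) ^ 6 →
    ∀ (U : ℂ → ℂ) (c : ℕ → ℂ), Frm T U c → (∀ p : ℕ, p.Prime → c p ^ 2 = c (p ^ 2) + p) →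
    ∀ z : ℍ, |z.re| ≤ 1 / 2 → 1 / 2 ≤ z.im → z.im ≤ Y0 →
    ∑ p ∈ PR N, ‖c p‖ ^ 2 / p ≤ (PR N).card / 2 →
    ((PR N).card : ℝ) ^ 2 * ‖U z‖ ^ 2 ≤
      K * ((N : ℝ) ^ ε * (N * T + √T * (N : ℝ) ^ (4 - 1 / 250000 : ℝ)))

/-- the final theorem -/
def BelowX : Prop :=
  ∀ K : Set ℂ, IsCompact K → K ⊆ {z : ℂ | 0 < z.im} →
    ∃ C : ℝ, ∀ T : ℝ, 1 ≤ T → ∀ U : ℂ → ℂ, IsHeckeMaass T U →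
      ∀ z ∈ K, ‖U z‖ ≤ C * T ^ (5 / 12 - 1 / 10 ^ 7 : ℝ)

end Pool.Agent.H36.XD
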