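import Mathlib
import Pool.Agent.H36.XD.St
import Pool.Agent.H19.Sup.N1
import Pool.Agent.H19.Sup.N2
import Pool.Agent.H19.Sup.L2
import Pool.Agent.H19.Sup.L3

set_option autoImplicit false

/-!
# X3: the sum over a good block of length `l`

As `H19/Sup/L3.lean`; the test is applied with the length `l` of the block and with
`lam = T h / (2 π N^k)`, `h` the size of the `k`-th derivative on the block.
-/

namespace Pool.Agent.H36.XD

open Polynomial
open Pool.Agent.H19.Maass Pool.Agent.H19.Sup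

/-- `H_bound` with the explicit exponent -/
theorem H_bound_x (j : ℕ) : ∃ (K : ℝ), 0 < K ∧ ∀ (p : Par) (μ : ℝ), p.Good μ →
    ∀ ρ : ℝ, 0 < ρ → ρ ≤ 1 → ∀ u : ℝ, |u| ≤ 40 → 1 ≤ p.n.eval u → ρ ^ 2 ≤ p.R1.eval u →
    ρ ^ 2 ≤ p.R2.eval u → |p.H (j + 1) u| ≤ K * (ρ⁻¹) ^ (2 * j + 1) := by
  obtain ⟨K, hK, h⟩ := al_bound j
  refine ⟨2 * K, by positivity, fun p μ hp ρ hρ hρ1 u hu hn h1 h2 => ?_⟩
  obtain ⟨ha, hb, -, -⟩ := h p μ hp u hu
  have e1 := N2_rpow hρ h1 j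
  have e2 := N2_rpow hρ h2 j
  have p1 : 0 ≤ (p.R1.eval u) ^ (1 / 2 - (j + 1 : ℝ)) :=
    Real.rpow_nonneg (le_trans (by positivity) h1) _
  have p2 : 0 ≤ (p.R2.eval u) ^ (1 / 2 - (j + 1 : ℝ)) :=
    Real.rpow_nonneg (le_trans (by positivity) h2) _
  simp only [Par.H]
  rw [abs_mul]
  have hn1 : |(p.n.eval u ^ (j + 1))⁻¹| ≤ 1 := by
    rw [abs_of_nonneg (by positivity)]
    exact inv_le_one_of_one_le₀ (one_le_pow₀ hn)
  have hmain : |(p.al1 j).eval u * (p.R1.eval u) ^ (1 / 2 - (j + 1 : ℝ)) -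
      (p.al2 j).eval u * (p.R2.eval u) ^ (1 / 2 - (j + 1 : ℝ))| ≤ 2 * K * (ρ⁻¹) ^ (2 * j + 1) := by
    calc _ ≤ |(p.al1 j).eval u * (p.R1.eval u) ^ (1 / 2 - (j + 1 : ℝ))| +
          |(p.al2 j).eval u * (p.R2.eval u) ^ (1 / 2 - (j + 1 : ℝ))| := abs_sub _ _
      _ ≤ K * (ρ⁻¹) ^ (2 * j + 1) + K * (ρ⁻¹) ^ (2 * j + 1) := by
          rw [abs_mul, abs_mul, abs_of_nonneg p1, abs_of_nonneg p2]
          exact add_le_add (mul_le_mul ha e1 p1 hK.le) (mul_le_mul hb e2 p2 hK.le)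
      _ = _ := by ring
  calc _ ≤ 1 * (2 * K * (ρ⁻¹) ^ (2 * j + 1)) :=
        mul_le_mul hn1 hmain (abs_nonneg _) zero_le_one
    _ = _ := one_mul _

theorem good_block_x : GoodBlockX := by
  intro k hk
  obtain ⟨C, hC, hvdc⟩ := tst k hk
  obtain ⟨K2, hK2, hH2⟩ := H_bound_x k
  refine ⟨24 * (C * ((K2 + 2) * 4)), by positivity, ?_⟩
  intro p μ hp A B0 B1 ρ₀ ρ h T N l u0 a b hA hρ hρ1 hh hl1 hlN hab hlen hblk hlo hhi hpt
  have hN : 1 ≤ N := hl1.trans hlN
  have hN0 : 0 < N := by linarith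
  have hl0 : 0 < l := by linarith
  have hNne : N ≠ 0 := hN0.ne'
  have hpi := Real.pi_pos
  obtain ⟨m, hm⟩ : ∃ m : ℕ, b = a + m := ⟨(b - a).toNat, by omega⟩
  subst hm
  set lam := T * h / (2 * Real.pi * N ^ k) with hlam
  have hlam0 : 0 < lam := lt_of_lt_of_le (Real.rpow_pos_of_pos hl0 _) hlo
  have hlam' : T / (2 * Real.pi * N ^ k) = lam / h := by
    rw [hlam]; field_simp
  -- the bounds `B0, B1` are nonnegative
  have hB0 : 0 ≤ B0 := (norm_nonneg _).trans (hA.bdd 0)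
  have hB1 : 0 ≤ B1 := by
    have := (norm_nonneg _).trans (hA.lip 1 0)
    simpa using this
  -- R
  set R := K2 + 2 with hR
  have hRone : 1 ≤ R := by linarith
  -- the phase
  let f : ℕ → ℝ → ℝ := fun i t => T / (2 * Real.pi) / N ^ i * p.H i (u0 + t / N)
  have hY : 0 < p.Y := by linarith [hp.hY.1]
  have hY' : 0 < p.Y' := by linarith [hp.hY'.1]
  have hder : ∀ i : ℕ, ∀ t : ℝ, (a : ℝ) ≤ t → t ≤ ((a + m : ℤ) : ℝ) →
      HasDerivAt (f i) (f (i + 1) t) t := by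
    intro i t h1 h2
    obtain ⟨-, g2, g3, g4, -, -⟩ := hpt t h1 h2
    have hn : 0 < p.n.eval (u0 + t / N) := by linarith
    have hr1 : 0 < p.R1.eval (u0 + t / N) := lt_of_lt_of_le (by positivity) g3
    have hr2 : 0 < p.R2.eval (u0 + t / N) := lt_of_lt_of_le (by positivity) g4
    have hH : HasDerivAt (p.H i) (p.H (i + 1) (u0 + t / N)) (u0 + t / N) := by
      cases i with
      | zero => exact p.hasDerivAt_zero hY hY' hn hr1 hr2
      | succ j => exact p.hasDerivAt_succ j hn hr1 hr2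
    have hlin : HasDerivAt (fun t : ℝ => u0 + t / N) (1 / N) t := by
      simpa using ((hasDerivAt_id t).div_const N).const_add u0
    have h3 := (HasDerivAt.comp t hH hlin).const_mul (T / (2 * Real.pi) / N ^ i)
    have h4 : T / (2 * Real.pi) / N ^ i * (p.H (i + 1) (u0 + t / N) * (1 / N)) = f (i + 1) t := by
      simp only [f]
      rw [pow_succ]
      field_simp
    rw [h4] at h3
    exact h3
  -- partial sums
  set M := C * (R / (1 / 2) ^ 2) * l ^ (1 - (1 / 2) ^ (k + 1) : ℝ) with hM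
  have hM0 : 0 ≤ M := by positivity
  have hpart : ∀ j ≤ m, ‖∑ i ∈ Finset.range (j + 1), ee (f 0 ((a + (i : ℤ) : ℤ) : ℝ))‖ ≤ M := by
    intro j hj
    have h1 : (a : ℝ) ≤ ((a + (j : ℤ) : ℤ) : ℝ) := by push_cast; linarith [Nat.cast_nonneg (α := ℝ) j]
    have hjm : (j : ℝ) ≤ m := by exact_mod_cast hj
    have h2 := hvdc f (a : ℝ) ((a + (j : ℤ) : ℤ) : ℝ) l lam (1 / 2) R hl1 h1 (by
      push_cast at hlen ⊢
      linarith) (by norm_num) (by norm_num) hRone hlo hhi (by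
      intro i _ x hx
      refine hder i x hx.1 (hx.2.trans ?_)
      push_cast
      linarith) (by
      intro x hx
      have hx2 : x ≤ ((a + m : ℤ) : ℝ) := hx.2.trans (by push_cast; linarith)
      obtain ⟨g1, g2, g3, g4, g5, g6⟩ := hpt x hx.1 hx2
      have hfk : |f k x| = lam / h * |p.H k (u0 + x / N)| := by
        simp only [f]
        rw [abs_mul]
        congr 1
        have : T / (2 * Real.pi) / N ^ k = lam / h := by rw [← hlam', div_div]
        rw [this, abs_of_pos (by positivity)]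
      rw [hfk]
      constructor
      · calc 1 / 2 * lam = lam / h * (h / 2) := by field_simp
          _ ≤ _ := mul_le_mul_of_nonneg_left g5 (by positivity)
      · calc lam / h * |p.H k (u0 + x / N)| ≤ lam / h * (2 * h) :=
              mul_le_mul_of_nonneg_left g6 (by positivity)
          _ = 2 * lam := by field_simp
          _ ≤ R * lam := mul_le_mul_of_nonneg_right (by linarith) hlam0.le)
      (by
      intro x hx
      have hx2 : x ≤ ((a + m : ℤ) : ℝ) := hx.2.trans (by push_cast; linarith)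
      obtain ⟨g1, g2, g3, g4, g5, g6⟩ := hpt x hx.1 hx2
      have hfk : |f (k + 1) x| = lam / (h * N) * |p.H (k + 1) (u0 + x / N)| := by
        simp only [f]
        rw [abs_mul]
        congr 1
        have : T / (2 * Real.pi) / N ^ (k + 1) = lam / (h * N) := by
          rw [hlam, pow_succ]; field_simp
        rw [this, abs_of_pos (by positivity)]
      rw [hfk]
      have h5 := hH2 p μ hp ρ hρ hρ1 _ g1 g2 g3 g4
      have h6 : (ρ⁻¹) ^ (2 * k + 1) ≤ N * h / l := by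
        rw [le_div_iff₀ hl0, mul_comm]; exact hblk
      calc lam / (h * N) * |p.H (k + 1) (u0 + x / N)| ≤
            lam / (h * N) * (K2 * (N * h / l)) :=
            mul_le_mul_of_nonneg_left (h5.trans (mul_le_mul_of_nonneg_left h6 hK2.le))
              (by positivity)
        _ = K2 * lam / l := by field_simp
        _ ≤ R * lam / l := by
            apply div_le_div_of_nonneg_right _ hl0.le
            exact mul_le_mul_of_nonneg_right (by linarith) hlam0.le)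
    rw [Int.ceil_intCast, Int.floor_intCast, L3_Icc] at h2
    exact h2
  -- the terms
  let ξ : ℕ → ℝ := fun i => p.m.eval (u0 + ((a + (i : ℤ) : ℤ) : ℝ) / N) /
    p.n.eval (u0 + ((a + (i : ℤ) : ℤ) : ℝ) / N)
  let α : ℕ → ℂ := fun i => A (dh 0 p.Y 1 (ξ i)) * (starRingEnd ℂ) (A (dh 0 p.Y' 1 (ξ i - p.Δ)))
  have hterm : ∀ i : ℕ, p.term A T N u0 (a + i) = α i * ee (f 0 ((a + (i : ℤ) : ℤ) : ℝ)) := by
    intro i
    simp only [Par.term, osc, α, ξ, ee, f, Par.H]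
    congr 2
    rw [pow_zero, div_one]
    congr 2
    field_simp
  have hα : ∀ i, ‖α i‖ ≤ B0 * B0 := by
    intro i
    simp only [α]
    rw [norm_mul, RCLike.norm_conj]
    exact mul_le_mul (hA.bdd _) (hA.bdd _) (norm_nonneg _) hB0
  have hcoord : ∀ i : ℕ, i ≤ m → (a : ℝ) ≤ ((a + (i : ℤ) : ℤ) : ℝ) ∧
      ((a + (i : ℤ) : ℤ) : ℝ) ≤ ((a + m : ℤ) : ℝ) := by
    intro i hi
    have him : (i : ℝ) ≤ m := by exact_mod_cast hi
    constructor
    · push_cast; linarith [Nat.cast_nonneg (α := ℝ) i]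
    · push_cast; linarith
  have hξ : ∀ i < m, |ξ (i + 1) - ξ i| ≤ 12 / N := by
    intro i hi
    obtain ⟨c1, c2⟩ := hcoord i hi.le
    obtain ⟨c3, c4⟩ := hcoord (i + 1) hi
    have h1 := (hpt _ c1 c2).2.1
    have h2 := (hpt _ c3 c4).2.1
    have h3 := xi_lip p hp h2 h1
    have h4 : |u0 + ((a + ((i + 1 : ℕ) : ℤ) : ℤ) : ℝ) / N - (u0 + ((a + (i : ℤ) : ℤ) : ℝ) / N)|
        = 1 / N := by
      have : u0 + ((a + ((i + 1 : ℕ) : ℤ) : ℤ) : ℝ) / N - (u0 + ((a + (i : ℤ) : ℤ) : ℝ) / N)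
          = 1 / N := by
        push_cast
        field_simp
        ring
      rw [this, abs_of_pos (by positivity)]
    rw [h4] at h3
    calc |ξ (i + 1) - ξ i| ≤ 12 * (1 / N) := h3
      _ = 12 / N := by ring
  have hvar : ∀ i < m, ‖α (i + 1) - α i‖ ≤ 24 * (B0 * B1) / N := by
    intro i hi
    have hx := hξ i hi
    have h1 : ‖A (dh 0 p.Y 1 (ξ (i + 1))) - A (dh 0 p.Y 1 (ξ i))‖ ≤ B1 * (12 / N) :=
      (hA.lip _ _).trans (mul_le_mul_of_nonneg_left ((dh_lip hY _ _).trans hx) hB1)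
    have h2 : ‖A (dh 0 p.Y' 1 (ξ (i + 1) - p.Δ)) - A (dh 0 p.Y' 1 (ξ i - p.Δ))‖ ≤
        B1 * (12 / N) := by
      refine (hA.lip _ _).trans (mul_le_mul_of_nonneg_left ((dh_lip hY' _ _).trans ?_) hB1)
      have : ξ (i + 1) - p.Δ - (ξ i - p.Δ) = ξ (i + 1) - ξ i := by ring
      rw [this]; exact hx
    have h3 : α (i + 1) - α i = (A (dh 0 p.Y 1 (ξ (i + 1))) - A (dh 0 p.Y 1 (ξ i))) *
        (starRingEnd ℂ) (A (dh 0 p.Y' 1 (ξ (i + 1) - p.Δ))) +
        A (dh 0 p.Y 1 (ξ i)) * (starRingEnd ℂ) (A (dh 0 p.Y' 1 (ξ (i + 1) - p.Δ)) -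
          A (dh 0 p.Y' 1 (ξ i - p.Δ))) := by
      simp only [α, map_sub]
      ring
    rw [h3]
    refine (norm_add_le _ _).trans ?_
    rw [norm_mul, norm_mul, RCLike.norm_conj, RCLike.norm_conj]
    have h4 : ‖A (dh 0 p.Y 1 (ξ (i + 1))) - A (dh 0 p.Y 1 (ξ i))‖ *
        ‖A (dh 0 p.Y' 1 (ξ (i + 1) - p.Δ))‖ ≤ B1 * (12 / N) * B0 :=
      mul_le_mul h1 (hA.bdd _) (norm_nonneg _) (by positivity)
    have h5 : ‖A (dh 0 p.Y 1 (ξ i))‖ *
        ‖A (dh 0 p.Y' 1 (ξ (i + 1) - p.Δ)) - A (dh 0 p.Y' 1 (ξ i - p.Δ))‖ ≤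
        B0 * (B1 * (12 / N)) :=
      mul_le_mul (hA.bdd _) h2 (norm_nonneg _) hB0
    calc _ ≤ B1 * (12 / N) * B0 + B0 * (B1 * (12 / N)) := add_le_add h4 h5
      _ = 24 * (B0 * B1) / N := by ring
  -- assembly
  rw [L3_Icc]
  have hsum : ∑ i ∈ Finset.range (m + 1), p.term A T N u0 (a + i) =
      ∑ i ∈ Finset.range (m + 1), α i * ee (f 0 ((a + (i : ℤ) : ℤ) : ℝ)) :=
    Finset.sum_congr rfl fun i _ => hterm i
  rw [hsum]
  refine (L3_parts α _ m hM0 hpart (hα m) hvar).trans ?_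
  have hmN : (m : ℝ) ≤ l := by
    push_cast at hlen
    linarith
  have h1 : (m : ℝ) * (24 * (B0 * B1) / N) ≤ 24 * (B0 * B1) * (l / N) := by
    calc (m : ℝ) * (24 * (B0 * B1) / N) ≤ l * (24 * (B0 * B1) / N) :=
          mul_le_mul_of_nonneg_right hmN (by positivity)
      _ = _ := by ring
  have h2 : 0 ≤ B0 * B0 := mul_nonneg hB0 hB0
  calc (B0 * B0 + m * (24 * (B0 * B1) / N)) * M ≤
        (24 * (B0 * B0) + 24 * (B0 * B1) * (l / N)) * M := by
        apply mul_le_mul_of_nonneg_right _ hM0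
        linarith
    _ = _ := by rw [hM, hR]; ring

end Pool.Agent.H36.XD
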