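import Mathlib
import Pool.Agent.H19.Sup.L4
import Pool.Agent.H19.Sup.N1
import Pool.Agent.H19.Sup.N2
import Pool.Agent.H36.XD.St

set_option autoImplicit false

/-!
# L4: the sum over a line, explicit exponents

`ε = N^(-1/8)`, blocks of length `w = N ε ρ^(2k+1) / C`.  On a good block (`ε ≤ |H_k|`) the function `H_k` is constant
up to a factor 2 because `|H_(k+1)| ≤ M (2/ρ)^(2k+1)`.  Bad blocks: `nondeg` with `Γ = K₃ N^(-1/19000)`, since
`198/19000 + 423/5000 ≤ 1/8`.  Small `N` by the trivial bound.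
-/

namespace Pool.Agent.H36.XD

open Polynomial Pool.Agent.H19.Sup

/-- the bound for `H (j+1)` with explicit exponent -/
theorem L4X_H (j : ℕ) : ∃ K : ℝ, 1 ≤ K ∧ ∀ (p : Par) (μ : ℝ), p.Good μ →
    ∀ ρ : ℝ, 0 < ρ → ρ ≤ 1 → ∀ u : ℝ, |u| ≤ 40 → 1 ≤ p.n.eval u → ρ ^ 2 ≤ p.R1.eval u →
    ρ ^ 2 ≤ p.R2.eval u → |p.H (j + 1) u| ≤ K * (ρ⁻¹) ^ (2 * j + 1) := by
  obtain ⟨K, hK, h⟩ := al_bound j
  refine ⟨2 * K + 1, by linarith, fun p μ hp ρ hρ hρ1 u hu hn h1 h2 => ?_⟩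
  obtain ⟨ha, hb, -, -⟩ := h p μ hp u hu
  have e1 := N2_rpow hρ h1 j
  have e2 := N2_rpow hρ h2 j
  have p1 : 0 ≤ (p.R1.eval u) ^ (1 / 2 - (j + 1 : ℝ)) :=
    Real.rpow_nonneg (le_trans (by positivity) h1) _
  have p2 : 0 ≤ (p.R2.eval u) ^ (1 / 2 - (j + 1 : ℝ)) :=
    Real.rpow_nonneg (le_trans (by positivity) h2) _
  have hP : 0 ≤ (ρ⁻¹) ^ (2 * j + 1) := by positivity
  simp only [Par.H]
  rw [abs_mul]
  have hn1 : |(p.n.eval u ^ (j + 1))⁻¹| ≤ 1 := by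
    rw [abs_of_nonneg (by positivity)]
    exact inv_le_one_of_one_le₀ (one_le_pow₀ hn)
  have hmain : |(p.al1 j).eval u * (p.R1.eval u) ^ (1 / 2 - (j + 1 : ℝ)) -
      (p.al2 j).eval u * (p.R2.eval u) ^ (1 / 2 - (j + 1 : ℝ))| ≤ 2 * K * (ρ⁻¹) ^ (2 * j + 1) := by
    calc _ ≤ |(p.al1 j).eval u * (p.R1.eval u) ^ (1 / 2 - (j + 1 : ℝ))| +
          |(p.al2 j).eval u * (p.R2.eval u) ^ (1 / 2 - (j + 1 : ℝ))| := abs_sub _ _
      _ ≤ K * (ρ⁻¹) ^ (2 * j + 1) + K * (ρ⁻¹) ^ (2 * j + 1) := by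
          rw [abs_mul, abs_mul, abs_of_nonneg p1, abs_of_nonneg p2]
          exact add_le_add (mul_le_mul ha e1 p1 hK.le) (mul_le_mul hb e2 p2 hK.le)
      _ = _ := by ring
  calc _ ≤ 1 * (2 * K * (ρ⁻¹) ^ (2 * j + 1)) :=
        mul_le_mul hn1 hmain (abs_nonneg _) zero_le_one
    _ ≤ _ := by
        rw [one_mul]
        exact mul_le_mul_of_nonneg_right (by linarith) hP

/-- `H (j+1)` varies little on a short block -/
theorem L4X_var (p : Par) (j : ℕ) {M N u0 a b : ℝ} (hN : 0 < N)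
    (hpos : ∀ t : ℝ, a ≤ t → t ≤ b → 0 < p.n.eval (u0 + t / N) ∧ 0 < p.R1.eval (u0 + t / N) ∧
      0 < p.R2.eval (u0 + t / N)) (hM : ∀ t : ℝ, a ≤ t → t ≤ b → |p.H (j + 2) (u0 + t / N)| ≤ M)
    {t : ℝ} (h1 : a ≤ t) (h2 : t ≤ b) :
    |p.H (j + 1) (u0 + t / N) - p.H (j + 1) (u0 + a / N)| ≤ M * ((b - a) / N) := by
  have hab : a ≤ b := h1.trans h2
  have hM0 : 0 ≤ M := (abs_nonneg _).trans (hM a le_rfl hab)
  have hd : ∀ x ∈ Set.Icc a b, HasDerivWithinAt (fun t => p.H (j + 1) (u0 + t / N))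
      (p.H (j + 2) (u0 + x / N) * (1 / N)) (Set.Icc a b) x := by
    intro x hx
    obtain ⟨g1, g2, g3⟩ := hpos x hx.1 hx.2
    have hH := p.hasDerivAt_succ j g1 g2 g3
    have hlin : HasDerivAt (fun t : ℝ => u0 + t / N) (1 / N) x := by
      simpa using ((hasDerivAt_id x).div_const N).const_add u0
    exact (HasDerivAt.comp x hH hlin).hasDerivWithinAt
  have hb : ∀ x ∈ Set.Icc a b, ‖p.H (j + 2) (u0 + x / N) * (1 / N)‖ ≤ M * (1 / N) := by
    intro x hx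
    rw [norm_mul, Real.norm_eq_abs, Real.norm_eq_abs, abs_of_pos (by positivity : 0 < 1 / N)]
    exact mul_le_mul_of_nonneg_right (hM x hx.1 hx.2) (by positivity)
  have h3 := (convex_Icc a b).norm_image_sub_le_of_norm_hasDerivWithin_le hd hb
    (Set.left_mem_Icc.mpr hab) (Set.mem_Icc.mpr ⟨h1, h2⟩)
  rw [Real.norm_eq_abs, Real.norm_eq_abs] at h3
  refine h3.trans ?_
  have h4 : |t - a| ≤ b - a := by
    rw [abs_le]
    constructor <;> linarith
  calc M * (1 / N) * |t - a| ≤ M * (1 / N) * (b - a) :=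
        mul_le_mul_of_nonneg_left h4 (by positivity)
    _ = _ := by ring

theorem line_sum_x (good_block : GoodBlockX) (nondeg : NondegX) : LineSumX := by
  intro k hk4 hk13
  obtain ⟨K₁, hK₁, hgb⟩ := good_block k hk4
  obtain ⟨j, rfl⟩ : ∃ j, k = j + 1 := ⟨k - 1, by omega⟩
  have hj12 : j ≤ 12 := by omega
  have hj12' : (j : ℝ) ≤ 12 := by exact_mod_cast hj12
  obtain ⟨K₂, hK₂, hnd⟩ := nondeg j
  obtain ⟨M₁, hM₁, hH1⟩ := L4X_H j
  obtain ⟨M₂, hM₂, hH2⟩ := L4X_H (j + 1)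
  obtain ⟨M, hMe⟩ : ∃ M : ℝ, M = M₁ * M₂ := ⟨_, rfl⟩
  have hM1 : 1 ≤ M := by rw [hMe]; exact one_le_mul_of_one_le_of_one_le hM₁ hM₂
  have hM₁M : M₁ ≤ M := by rw [hMe]; exact le_mul_of_one_le_right (by linarith) hM₂
  have hM₂M : M₂ ≤ M := by rw [hMe]; exact le_mul_of_one_le_left (by linarith) hM₁
  obtain ⟨e, hee⟩ : ∃ e : ℕ, e = 2 * (j + 1) + 1 := ⟨_, rfl⟩
  have he27 : (e : ℝ) ≤ 27 := by
    have : e ≤ 27 := by omega
    exact_mod_cast this
  obtain ⟨q, hqe⟩ : ∃ q : ℝ, q = 2 ^ e := ⟨_, rfl⟩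
  have hq1 : 1 ≤ q := by rw [hqe]; exact one_le_pow₀ (by norm_num)
  obtain ⟨Cw, hCe⟩ : ∃ Cw : ℝ, Cw = 96 * (q * M) := ⟨_, rfl⟩
  have hqM : 1 ≤ q * M := one_le_mul_of_one_le_of_one_le hq1 hM1
  have hC96 : 96 ≤ Cw := by rw [hCe]; linarith
  have hC1 : 1 ≤ Cw := by linarith
  have hC0 : 0 < Cw := by linarith
  have hqMC : q * M ≤ Cw := by rw [hCe]; linarith
  obtain ⟨d, hd⟩ : ∃ d : ℕ, d = 16 * j + 6 := ⟨_, rfl⟩
  obtain ⟨E₂, hE₂⟩ : ∃ E₂ : ℕ, E₂ = 34 * j + 15 := ⟨_, rfl⟩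
  have hd1 : 1 ≤ d := by omega
  obtain ⟨K₃, hK₃⟩ : ∃ K₃ : ℝ, K₃ = max 1 K₂ := ⟨_, rfl⟩
  have hK₃1 : 1 ≤ K₃ := hK₃ ▸ le_max_left _ _
  have hK₃2 : K₂ ≤ K₃ := hK₃ ▸ le_max_right _ _
  have hK₃0 : 0 < K₃ := by linarith
  obtain ⟨K, hK⟩ : ∃ K : ℝ, K = 81 * Cw + 81 * K₃ + 161 * K₁ * Cw + d * (K₃ + 2) := ⟨_, rfl⟩
  have hK0 : 0 < K := by rw [hK]; positivity
  have hKa : 81 * Cw ≤ K := by
    rw [hK]
    have : 0 ≤ 81 * K₃ + 161 * K₁ * Cw + d * (K₃ + 2) := by positivity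
    linarith
  have hKb : 81 * K₃ ≤ K := by
    rw [hK]
    have : 0 ≤ 81 * Cw + 161 * K₁ * Cw + d * (K₃ + 2) := by positivity
    linarith
  refine ⟨K, hK0, ?_⟩
  intro p μ hp A B0 B1 ρ T N u0 na nb hA hρ hρ1 hN hNμ hNρ hT1 hT2 hu
  have hμ := hp.hμ
  have hμ1 := hp.hμ1
  have hB0 := L4_B0 hA
  have hB1 := L4_B1 hA
  have hN0 : 0 < N := by linarith
  obtain ⟨c, hce⟩ : ∃ c : ℝ, c = 1 / 19000 := ⟨_, rfl⟩
  obtain ⟨F, hFe⟩ : ∃ F : ℝ, F = N ^ (-(1 / 19000) : ℝ) := ⟨_, rfl⟩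
  obtain ⟨F', hFe'⟩ : ∃ F' : ℝ, F' = N ^ (-(1 / 20) : ℝ) := ⟨_, rfl⟩
  rw [← hFe, ← hFe']
  have hF0 : 0 < F := by rw [hFe]; exact Real.rpow_pos_of_pos hN0 _
  have hF0' : 0 < F' := by rw [hFe']; exact Real.rpow_pos_of_pos hN0 _
  have hBB : 0 ≤ B0 * B1 := mul_nonneg hB0 hB1
  -- a bound by a multiple of `B0² F N` suffices
  have hfin : ∀ y : ℝ, y ≤ K → y * (B0 ^ 2 * F) * N ≤ K * (B0 ^ 2 * F + B0 * B1 * F') * N := by
    intro y hy
    have h1 : y * (B0 ^ 2 * F) ≤ K * (B0 ^ 2 * F) := mul_le_mul_of_nonneg_right hy (by positivity)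
    have h2 : 0 ≤ K * (B0 * B1 * F') := by positivity
    refine mul_le_mul_of_nonneg_right ?_ hN0.le
    rw [mul_add]
    linarith
  rcases lt_or_ge nb na with hlt | hab
  · rw [Finset.Icc_eq_empty (by omega), Finset.sum_empty, norm_zero]
    positivity
  have hua := hu na le_rfl hab
  have hub := hu nb hab le_rfl
  obtain ⟨hlen, htriv⟩ := L4_triv p hA (T := T) hN hab hua.1 hub.1
  have hB2 : B0 * B0 = B0 ^ 2 := by ring
  rw [hB2] at htriv
  -- small `N`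
  rcases lt_or_ge N (Cw ^ 7) with hNC | hNC
  · refine htriv.trans (le_trans ?_ (hfin (81 * Cw) hKa))
    have h1 : 1 ≤ Cw * F := by
      have h2 : N ^ (1 / 19000 : ℝ) ≤ Cw := by
        calc N ^ (1 / 19000 : ℝ) ≤ N ^ (1 / 7 : ℝ) :=
              Real.rpow_le_rpow_of_exponent_le hN (by norm_num)
          _ ≤ (Cw ^ 7) ^ (1 / 7 : ℝ) := Real.rpow_le_rpow hN0.le hNC.le (by norm_num)
          _ = Cw := by
              rw [← Real.rpow_natCast, ← Real.rpow_mul hC0.le]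
              norm_num
      have h3 : N ^ (1 / 19000 : ℝ) * F = 1 := by
        rw [hFe, ← Real.rpow_add hN0]
        norm_num
      rw [← h3]
      exact mul_le_mul_of_nonneg_right h2 hF0.le
    calc 81 * N * B0 ^ 2 = 81 * N * B0 ^ 2 * 1 := by ring
      _ ≤ 81 * N * B0 ^ 2 * (Cw * F) := mul_le_mul_of_nonneg_left h1 (by positivity)
      _ = 81 * Cw * (B0 ^ 2 * F) * N := by ring
  -- powers of `N`
  have hCN : Cw ≤ N ^ (1 / 7 : ℝ) := by
    calc Cw = (Cw ^ 7) ^ (1 / 7 : ℝ) := by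
          rw [← Real.rpow_natCast, ← Real.rpow_mul hC0.le]
          norm_num
      _ ≤ N ^ (1 / 7 : ℝ) := Real.rpow_le_rpow (by positivity) hNC (by norm_num)
  obtain ⟨Γ, hΓe⟩ : ∃ Γ : ℝ, Γ = K₃ * F := ⟨_, rfl⟩
  have hΓ0 : 0 < Γ := by rw [hΓe]; positivity
  rcases le_or_gt 1 Γ with hΓ | hΓ
  · refine htriv.trans (le_trans ?_ (hfin (81 * K₃) hKb))
    calc 81 * N * B0 ^ 2 = 81 * N * B0 ^ 2 * 1 := by ring
      _ ≤ 81 * N * B0 ^ 2 * Γ := mul_le_mul_of_nonneg_left hΓ (by positivity)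
      _ = 81 * K₃ * (B0 ^ 2 * F) * N := by rw [hΓe]; ring
  obtain ⟨P, hPe⟩ : ∃ P : ℝ, P = (ρ⁻¹) ^ e := ⟨_, rfl⟩
  have hρi : 1 ≤ ρ⁻¹ := (one_le_inv₀ hρ).2 hρ1
  have hP1 : 1 ≤ P := by rw [hPe]; exact one_le_pow₀ hρi
  have hP0 : 0 < P := by linarith
  have hPρ : ρ⁻¹ ≤ P := by rw [hPe]; exact le_self_pow₀ hρi (by omega)
  have hPN : P ≤ N ^ (27 / 5000 : ℝ) := by
    have h1 : ρ⁻¹ ≤ N ^ (1 / 5000 : ℝ) := by
      have h2 : N ^ (1 / 5000 : ℝ) = (N ^ (-(1 / 5000) : ℝ))⁻¹ := by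
        rw [← Real.rpow_neg hN0.le]
        norm_num
      rw [h2]
      exact inv_anti₀ (Real.rpow_pos_of_pos hN0 _) hNρ
    rw [hPe]
    calc (ρ⁻¹) ^ e ≤ (N ^ (1 / 5000 : ℝ)) ^ e := pow_le_pow_left₀ (by positivity) h1 _
      _ = N ^ (1 / 5000 * e : ℝ) := by rw [← Real.rpow_natCast, ← Real.rpow_mul hN0.le]
      _ ≤ N ^ (27 / 5000 : ℝ) := Real.rpow_le_rpow_of_exponent_le hN (by linarith)
  obtain ⟨ε, hεe⟩ : ∃ ε : ℝ, ε = N ^ (-(1 / 8) : ℝ) := ⟨_, rfl⟩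
  have hε0 : 0 < ε := by rw [hεe]; exact Real.rpow_pos_of_pos hN0 _
  have hε1 : ε ≤ 1 := by
    rw [hεe]
    exact Real.rpow_le_one_of_one_le_of_nonpos hN (by norm_num)
  have hεF : ε ≤ F := by
    rw [hεe, hFe]
    exact Real.rpow_le_rpow_of_exponent_le hN (by norm_num)
  have hεF' : ε ≤ F' := by
    rw [hεe, hFe']
    exact Real.rpow_le_rpow_of_exponent_le hN (by norm_num)
  -- the length of the blocks
  obtain ⟨w, hwe⟩ : ∃ w : ℝ, w = N * ε / (Cw * P) := ⟨_, rfl⟩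
  have hCP : 0 < Cw * P := by positivity
  have hw0 : 0 < w := by rw [hwe]; positivity
  have hwCP : w * (Cw * P) = N * ε := by rw [hwe]; field_simp
  have hwlow : N ^ (2174 / 2500 : ℝ) ≤ Cw * w := by
    have h1 : N ^ (2174 / 2500 : ℝ) * P ≤ N * ε := by
      calc N ^ (2174 / 2500 : ℝ) * P ≤ N ^ (2174 / 2500 : ℝ) * N ^ (27 / 5000 : ℝ) :=
            mul_le_mul_of_nonneg_left hPN (Real.rpow_nonneg hN0.le _)
        _ = N ^ (1 : ℝ) * N ^ (-(1 / 8) : ℝ) := by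
            rw [← Real.rpow_add hN0, ← Real.rpow_add hN0]
            norm_num
        _ = N * ε := by rw [Real.rpow_one, ← hεe]
    have h2 : N ^ (2174 / 2500 : ℝ) * P ≤ (Cw * w) * P := by
      calc _ ≤ N * ε := h1
        _ = w * (Cw * P) := hwCP.symm
        _ = (Cw * w) * P := by ring
    exact le_of_mul_le_mul_right h2 hP0
  have hwε : w ≤ N * ε / Cw := by
    rw [hwe]
    apply div_le_div_of_nonneg_left (by positivity) hC0
    exact le_mul_of_one_le_right hC0.le hP1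
  have hwNε : w ≤ N * ε := hwε.trans (div_le_self (by positivity) hC1)
  have hwN1 : w ≤ N := hwNε.trans (mul_le_of_le_one_right hN0.le hε1)
  have hwρ : w ≤ ρ * N / 48 := by
    have h1 : w * (Cw * ρ⁻¹) ≤ N := by
      calc w * (Cw * ρ⁻¹) ≤ w * (Cw * P) := by gcongr
        _ = N * ε := hwCP
        _ ≤ N := mul_le_of_le_one_right hN0.le hε1
    have h2 : w * Cw ≤ ρ * N := by
      have h3 := mul_le_mul_of_nonneg_left h1 hρ.le
      have h4 : ρ * (w * (Cw * ρ⁻¹)) = w * Cw := by field_simp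
      rwa [h4] at h3
    have h5 : w * 48 ≤ w * Cw := mul_le_mul_of_nonneg_left (by linarith) hw0.le
    linarith
  have hw : 1 ≤ w := by
    have h1 : Cw * 1 ≤ Cw * w := by
      rw [mul_one]
      refine (hCN.trans ?_).trans hwlow
      exact Real.rpow_le_rpow_of_exponent_le hN (by norm_num)
    exact le_of_mul_le_mul_left h1 hC0
  obtain ⟨lam, hlam⟩ : ∃ lam : ℝ, lam = T / (2 * Real.pi * N ^ (j + 1)) := ⟨_, rfl⟩
  rw [← hlam] at hT1 hT2
  have hlam0 : 0 < lam := (Real.rpow_pos_of_pos hN0 _).trans_le hT1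
  -- the saving
  have hδ : (1 / 16384 : ℝ) ≤ (1 / 2) ^ (j + 1 + 1) := by
    have h1 : ((1 / 2 : ℝ)) ^ 14 ≤ (1 / 2) ^ (j + 1 + 1) :=
      pow_le_pow_of_le_one (by norm_num) (by norm_num) (by omega)
    refine le_trans ?_ h1
    norm_num
  have hsave : w ^ (-((1 / 2) ^ (j + 1 + 1)) : ℝ) ≤ Cw * F := by
    calc w ^ (-((1 / 2) ^ (j + 1 + 1)) : ℝ) ≤ w ^ (-(1 / 16384) : ℝ) :=
          Real.rpow_le_rpow_of_exponent_le hw (by linarith)
      _ ≤ (N ^ (2174 / 2500 : ℝ) / Cw) ^ (-(1 / 16384) : ℝ) := by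
          apply Real.rpow_le_rpow_of_nonpos (by positivity) _ (by norm_num)
          rw [div_le_iff₀ hC0]
          linarith
      _ = N ^ (2174 / 2500 * -(1 / 16384) : ℝ) * Cw ^ (1 / 16384 : ℝ) := by
          rw [Real.div_rpow (Real.rpow_nonneg hN0.le _) hC0.le, ← Real.rpow_mul hN0.le,
            div_eq_mul_inv, ← Real.rpow_neg hC0.le]
          norm_num
      _ ≤ F * Cw := by
          apply mul_le_mul _ _ (Real.rpow_nonneg hC0.le _) hF0.le
          · rw [hFe]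
            exact Real.rpow_le_rpow_of_exponent_le hN (by norm_num)
          · calc Cw ^ (1 / 16384 : ℝ) ≤ Cw ^ (1 : ℝ) :=
                  Real.rpow_le_rpow_of_exponent_le hC1 (by norm_num)
              _ = Cw := Real.rpow_one _
      _ = Cw * F := mul_comm _ _
  have hsave1 : w ^ (-((1 / 2) ^ (j + 1 + 1)) : ℝ) ≤ 1 :=
    Real.rpow_le_one_of_one_le_of_nonpos hw (by
      have : (0 : ℝ) ≤ (1 / 2) ^ (j + 1 + 1) := by positivity
      linarith)
  -- the main case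
  obtain ⟨L, hLe⟩ : ∃ L : ℕ, L = ⌊w⌋₊ := ⟨_, rfl⟩
  have hL1 : 1 ≤ L := by rw [hLe]; exact Nat.floor_pos.2 hw
  have hL1' : (1 : ℝ) ≤ L := by exact_mod_cast hL1
  have hL0' : (0 : ℝ) < L := by linarith
  have hLw : (L : ℝ) ≤ w := by rw [hLe]; exact Nat.floor_le hw0.le
  have hwL : w ≤ 2 * L := by
    have : w < L + 1 := by rw [hLe]; exact Nat.lt_floor_add_one w
    linarith
  obtain ⟨s, hse⟩ : ∃ s : ℕ, s = ⌈Γ * N / L⌉₊ + 1 := ⟨_, rfl⟩
  have hs1 : 1 ≤ s := by omega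
  have hsL : Γ * N ≤ ((s : ℝ) - 1) * L := by
    have : Γ * N / L ≤ (s : ℝ) - 1 := by
      rw [hse]; push_cast
      linarith [Nat.le_ceil (Γ * N / L)]
    rwa [div_le_iff₀ hL0'] at this
  have hsL' : (s : ℝ) * L ≤ Γ * N + 2 * w := by
    have : (s : ℝ) ≤ Γ * N / L + 2 := by
      rw [hse]; push_cast
      linarith [(Nat.ceil_lt_add_one (a := Γ * N / L) (by positivity)).le]
    calc (s : ℝ) * L ≤ (Γ * N / L + 2) * L := by gcongr
      _ = Γ * N + 2 * L := by field_simp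
      _ ≤ _ := by linarith
  obtain ⟨G, hGe⟩ : ∃ G : ℝ, G = K₁ * (B0 * (B0 + B1 * (w / N))) *
      w ^ (1 - (1 / 2) ^ (j + 1 + 1) : ℝ) := ⟨_, rfl⟩
  have hG0 : 0 ≤ G := by rw [hGe]; positivity
  -- facts on blocks
  have hblk : ∀ i : ℕ, na + (i : ℤ) * L ≤ nb →
      na ≤ na + (i : ℤ) * L ∧ na + (i : ℤ) * L ≤ min nb (na + (i + 1 : ℤ) * L - 1) ∧
      min nb (na + (i + 1 : ℤ) * L - 1) ≤ nb ∧
      ((min nb (na + (i + 1 : ℤ) * L - 1) - (na + (i : ℤ) * L) : ℤ) : ℝ) ≤ w := by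
    intro i hi
    have hL1z : (1 : ℤ) ≤ L := by exact_mod_cast hL1
    have hiL : (0 : ℤ) ≤ (i : ℤ) * L := by positivity
    refine ⟨by omega, ?_, min_le_left _ _, ?_⟩
    · refine le_min hi ?_
      have : (i + 1 : ℤ) * L = (i : ℤ) * L + L := by ring
      rw [this]; omega
    · have h1 : min nb (na + (i + 1 : ℤ) * L - 1) - (na + (i : ℤ) * L) ≤ L := by
        have h2 := min_le_right nb (na + (i + 1 : ℤ) * L - 1)
        have : (i + 1 : ℤ) * L = (i : ℤ) * L + L := by ring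
        rw [this] at h2 ⊢
        omega
      calc ((min nb (na + (i + 1 : ℤ) * L - 1) - (na + (i : ℤ) * L) : ℤ) : ℝ) ≤ ((L : ℤ) : ℝ) := by
            exact_mod_cast h1
        _ = L := by norm_cast
        _ ≤ w := hLw
  have hmain := blocks (p.term A T N u0) hab (B := B0 * B0) (G := G) (mul_nonneg hB0 hB0) hG0 L s d
    hL1 hs1 (fun n => L4_osc_le hA _ _ _)
    (fun i => (∃ n : ℤ, na + (i : ℤ) * L ≤ n ∧ n ≤ min nb (na + (i + 1 : ℤ) * L - 1) ∧
        p.term A T N u0 n ≠ 0) ∧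
      ∃ t : ℝ, ((na + (i : ℤ) * L : ℤ) : ℝ) ≤ t ∧ t ≤ ((min nb (na + (i + 1 : ℤ) * L - 1) : ℤ) : ℝ) ∧
        |p.H (j + 1) (u0 + t / N)| < ε) ?_ ?_
  rotate_left
  · -- good blocks
    intro i hnb hi
    obtain ⟨h1, h2, h3, h4⟩ := hblk i hi
    by_cases hz : ∃ n : ℤ, na + (i : ℤ) * L ≤ n ∧ n ≤ min nb (na + (i + 1 : ℤ) * L - 1) ∧
        p.term A T N u0 n ≠ 0
    · have hH : ∀ t : ℝ, ((na + (i : ℤ) * L : ℤ) : ℝ) ≤ t →
          t ≤ ((min nb (na + (i + 1 : ℤ) * L - 1) : ℤ) : ℝ) → ε ≤ |p.H (j + 1) (u0 + t / N)| := by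
        intro t ht1 ht2
        by_contra hc'
        exact hnb ⟨hz, t, ht1, ht2, not_le.1 hc'⟩
      obtain ⟨n, hn1, hn2, hn3⟩ := hz
      obtain ⟨x, hx⟩ : ∃ x : ℤ, x = na + (i : ℤ) * L := ⟨_, rfl⟩
      obtain ⟨y, hy⟩ : ∃ y : ℤ, y = min nb (na + (i + 1 : ℤ) * L - 1) := ⟨_, rfl⟩
      rw [← hx, ← hy] at h2 h4 hH
      rw [← hx] at h1 hn1
      rw [← hy] at h3 hn2
      rw [← hx, ← hy]
      have hxy : (x : ℝ) ≤ y := by exact_mod_cast h2
      have hq : ∀ t : ℝ, (x : ℝ) ≤ t → t ≤ y → |u0 + t / N| ≤ 40 ∧ 1 ≤ p.n.eval (u0 + t / N) ∧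
          (ρ / 2) ^ 2 ≤ p.R1.eval (u0 + t / N) ∧ (ρ / 2) ^ 2 ≤ p.R2.eval (u0 + t / N) :=
        fun t ht1 ht2 => L4_block p hp hA hρ hN (hu _ h1 (h2.trans h3))
          (hu _ (h1.trans h2) h3) ⟨hn1, hn2⟩ hn3 (h4.trans hwρ) ht1 ht2
      have hρ2 : 0 < (ρ / 2) ^ 2 := by positivity
      -- the size of the derivatives
      have hqP : ((ρ / 2)⁻¹) ^ e = q * P := by
        rw [hqe, hPe, ← mul_pow]
        congr 1
        field_simp
      have hb2 : ∀ t : ℝ, (x : ℝ) ≤ t → t ≤ y → |p.H (j + 2) (u0 + t / N)| ≤ M * (q * P) := by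
        intro t ht1 ht2
        obtain ⟨q1, q2, q3, q4⟩ := hq t ht1 ht2
        have h5 := hH2 p μ hp (ρ / 2) (by positivity) (by linarith) _ q1 q2 q3 q4
        rw [← hee, hqP] at h5
        refine h5.trans (mul_le_mul_of_nonneg_right hM₂M (by positivity))
      obtain ⟨h, hhe⟩ : ∃ h : ℝ, h = |p.H (j + 1) (u0 + x / N)| := ⟨_, rfl⟩
      have hhε : ε ≤ h := by rw [hhe]; exact hH x le_rfl hxy
      have hh0 : 0 < h := hε0.trans_le hhε
      have hhup : h ≤ M * (q * P) := by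
        obtain ⟨q1, q2, q3, q4⟩ := hq x le_rfl hxy
        have h5 := hH1 p μ hp (ρ / 2) (by positivity) (by linarith) _ q1 q2 q3 q4
        have h6 : ((ρ / 2)⁻¹) ^ (2 * j + 1) ≤ ((ρ / 2)⁻¹) ^ e :=
          pow_le_pow_right₀ ((one_le_inv₀ (by positivity)).2 (by linarith)) (by omega)
        rw [hqP] at h6
        rw [hhe]
        refine h5.trans (mul_le_mul hM₁M h6 (by positivity) (by linarith))
      have hvar : ∀ t : ℝ, (x : ℝ) ≤ t → t ≤ y →
          |p.H (j + 1) (u0 + t / N) - p.H (j + 1) (u0 + x / N)| ≤ h / 2 := by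
        intro t ht1 ht2
        have h5 := L4X_var p j hN0 (a := x) (b := y) (u0 := u0) (M := M * (q * P))
          (fun t ht1 ht2 => by
            obtain ⟨q1, q2, q3, q4⟩ := hq t ht1 ht2
            exact ⟨by linarith, hρ2.trans_le q3, hρ2.trans_le q4⟩) hb2 ht1 ht2
        refine h5.trans ?_
        have h6 : ((y : ℝ) - x) / N ≤ w / N := by
          apply div_le_div_of_nonneg_right _ hN0.le
          push_cast at h4
          exact h4
        have h7 : M * (q * P) * (w / N) = ε / 96 := by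
          rw [hwe, hCe]
          field_simp
        calc M * (q * P) * (((y : ℝ) - x) / N) ≤ M * (q * P) * (w / N) :=
              mul_le_mul_of_nonneg_left h6 (by positivity)
          _ = ε / 96 := h7
          _ ≤ h / 2 := by linarith
      rw [hGe]
      refine hgb p μ hp A B0 B1 ρ (ρ / 2) h T N w u0 x y hA (by positivity) (by linarith) hh0 hw hwN1
        h2 h4 ?_ ?_ ?_ ?_
      · rw [← hee, hqP]
        calc w * (q * P) = (w * (Cw * P)) * (q / Cw) := by field_simp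
          _ = N * ε * (q / Cw) := by rw [hwCP]
          _ ≤ N * ε * 1 := by
              apply mul_le_mul_of_nonneg_left _ (by positivity)
              rw [div_le_one hC0]
              have : q ≤ q * M := le_mul_of_one_le_right (by linarith) hM1
              linarith
          _ ≤ N * h := by
              rw [mul_one]
              exact mul_le_mul_of_nonneg_left hhε hN0.le
      · have e1 : T * h / (2 * Real.pi * N ^ (j + 1)) = lam * h := by
          rw [hlam]; ring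
        rw [e1]
        have e2 : N ^ (-(17 / 8) : ℝ) ≤ lam * h := by
          calc N ^ (-(17 / 8) : ℝ) = N ^ (-2 : ℝ) * N ^ (-(1 / 8) : ℝ) := by
                rw [← Real.rpow_add hN0]
                norm_num
            _ ≤ lam * h := by
                rw [← hεe]
                exact mul_le_mul hT1 hhε hε0.le hlam0.le
        refine le_trans ?_ e2
        have e3 : N ^ (17 / 24 : ℝ) ≤ w := by
          have e4 : Cw * N ^ (17 / 24 : ℝ) ≤ Cw * w := by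
            calc Cw * N ^ (17 / 24 : ℝ) ≤ N ^ (1 / 7 : ℝ) * N ^ (17 / 24 : ℝ) :=
                  mul_le_mul_of_nonneg_right hCN (Real.rpow_nonneg hN0.le _)
              _ = N ^ (1 / 7 + 17 / 24 : ℝ) := by rw [← Real.rpow_add hN0]
              _ ≤ N ^ (2174 / 2500 : ℝ) := Real.rpow_le_rpow_of_exponent_le hN (by norm_num)
              _ ≤ Cw * w := hwlow
          exact le_of_mul_le_mul_left e4 hC0
        calc w ^ (-(3 : ℝ)) ≤ (N ^ (17 / 24 : ℝ)) ^ (-(3 : ℝ)) :=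
              Real.rpow_le_rpow_of_nonpos (Real.rpow_pos_of_pos hN0 _) e3 (by norm_num)
          _ = N ^ (-(17 / 8) : ℝ) := by
              rw [← Real.rpow_mul hN0.le]
              norm_num
      · have e1 : T * h / (2 * Real.pi * N ^ (j + 1)) = lam * h := by
          rw [hlam]; ring
        rw [e1]
        calc lam * h ≤ N ^ (-(9 / 10) : ℝ) * (M * (q * P)) :=
              mul_le_mul hT2 hhup hh0.le (Real.rpow_nonneg hN0.le _)
          _ = N ^ (-(9 / 10) : ℝ) * ((q * M) * P) := by ring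
          _ ≤ N ^ (-(9 / 10) : ℝ) * (N ^ (1 / 7 : ℝ) * N ^ (27 / 5000 : ℝ)) := by
              apply mul_le_mul_of_nonneg_left _ (Real.rpow_nonneg hN0.le _)
              exact mul_le_mul (hqMC.trans hCN) hPN hP0.le (Real.rpow_nonneg hN0.le _)
          _ = N ^ (-(9 / 10) + (1 / 7 + 27 / 5000) : ℝ) := by
              rw [← Real.rpow_add hN0, ← Real.rpow_add hN0]
          _ ≤ N ^ (-(3 / 4) : ℝ) := Real.rpow_le_rpow_of_exponent_le hN (by norm_num)
          _ ≤ w ^ (-(3 / 4) : ℝ) := Real.rpow_le_rpow_of_nonpos hw0 hwN1 (by norm_num)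
      · intro t ht1 ht2
        obtain ⟨q1, q2, q3, q4⟩ := hq t ht1 ht2
        have h5 := hvar t ht1 ht2
        have h6 := abs_sub_abs_le_abs_sub (p.H (j + 1) (u0 + t / N)) (p.H (j + 1) (u0 + x / N))
        have h7 := abs_sub_abs_le_abs_sub (p.H (j + 1) (u0 + x / N)) (p.H (j + 1) (u0 + t / N))
        rw [abs_sub_comm] at h7
        rw [← hhe] at h6 h7
        exact ⟨q1, q2, q3, q4, by linarith, by linarith⟩
    · push Not at hz
      rw [Finset.sum_eq_zero, norm_zero]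
      · exact hG0
      · intro n hn
        rw [Finset.mem_Icc] at hn
        exact hz n hn.1 hn.2
  · -- bad blocks
    intro f hf hsep
    have hf' : ∀ i, ∃ t : ℝ, ((na + (f i : ℤ) * L : ℤ) : ℝ) ≤ t ∧
        t ≤ ((min nb (na + (f i + 1 : ℤ) * L - 1) : ℤ) : ℝ) ∧
        |p.H (j + 1) (u0 + t / N)| < ε ∧ (|u0 + t / N| ≤ 40 ∧ 1 ≤ p.n.eval (u0 + t / N) ∧
        (ρ / 2) ^ 2 ≤ p.R1.eval (u0 + t / N) ∧ (ρ / 2) ^ 2 ≤ p.R2.eval (u0 + t / N)) := by
      intro i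
      obtain ⟨⟨⟨n, hn1, hn2, hn3⟩, t, ht1, ht2, ht3⟩, hi⟩ := hf i
      obtain ⟨h1, h2, h3, h4⟩ := hblk (f i) hi
      exact ⟨t, ht1, ht2, ht3, L4_block p hp hA hρ hN (hu _ h1 (h2.trans h3))
        (hu _ (h1.trans h2) h3) ⟨hn1, hn2⟩ hn3 (h4.trans hwρ) ht1 ht2⟩
    choose t ht1 ht2 ht3 ht4 using hf'
    obtain ⟨g, hge⟩ : ∃ g : ℝ, g = min 1 ((((s : ℝ) - 1) * L + 1) / N) := ⟨_, rfl⟩
    have hgΓ : Γ < g := by
      rw [hge]
      refine lt_min hΓ ?_
      rw [lt_div_iff₀ hN0]; linarith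
    have hg1 : g ≤ 1 := hge ▸ min_le_left _ _
    have hsepr : ∀ i l : Fin (d + 1), i < l → g ≤ (u0 + t l / N) - (u0 + t i / N) := by
      intro i l hil
      have h1 := hsep i l hil
      have h2 : ((s : ℝ) - 1) * L + 1 ≤ t l - t i := by
        have e1 := ht1 l
        have e2 : t i ≤ ((na + (f i + 1 : ℤ) * L - 1 : ℤ) : ℝ) :=
          (ht2 i).trans (by exact_mod_cast min_le_right _ _)
        have e3 : ((f i : ℝ) + s) ≤ f l := by exact_mod_cast h1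
        push_cast at e1 e2
        have e4 : ((f i : ℝ) + s) * L ≤ f l * L := by gcongr
        linarith
      have e : (u0 + t l / N) - (u0 + t i / N) = (t l - t i) / N := by ring
      rw [e, hge]
      exact (min_le_right _ _).trans (div_le_div_of_nonneg_right h2 hN0.le)
    have hsep2 : ∀ i l : Fin (d + 1), i ≠ l → g ≤ |(u0 + t i / N) - (u0 + t l / N)| := by
      intro i l hil
      rcases lt_or_gt_of_ne hil with h | h
      · rw [abs_sub_comm]; exact (hsepr i l h).trans (le_abs_self _)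
      · exact (hsepr l i h).trans (le_abs_self _)
    have hρ2 : 0 < (ρ / 2) ^ 2 := by positivity
    have hfinal : μ ^ E₂ * g ^ d ≤ K₂ * ε := by
      clear hK hK0 hfin hsL hsL' hKa hKb
      subst hd
      subst hE₂
      exact hnd p μ hp g ε (hΓ0.trans hgΓ) hg1 hε0.le (fun i => u0 + t i / N)
        (fun i => (ht4 i).1) hsep2 (fun i => one_pos.trans_le (ht4 i).2.1)
        (fun i => hρ2.trans_le (ht4 i).2.2.1) (fun i => hρ2.trans_le (ht4 i).2.2.2)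
        (fun i => (ht3 i).le)
    have hΓd : K₂ * ε ≤ μ ^ E₂ * Γ ^ d := by
      have e1 : N ^ (-(1 / 5000) * E₂ : ℝ) ≤ μ ^ E₂ := by
        calc N ^ (-(1 / 5000) * E₂ : ℝ) = (N ^ (-(1 / 5000) : ℝ)) ^ E₂ := by
              rw [← Real.rpow_natCast, ← Real.rpow_mul hN0.le]
          _ ≤ μ ^ E₂ := pow_le_pow_left₀ (Real.rpow_nonneg hN0.le _) hNμ _
      have e2 : K₂ ≤ K₃ ^ d := hK₃2.trans (le_self_pow₀ hK₃1 (by omega))
      have e3 : F ^ d = N ^ (-(1 / 19000) * d : ℝ) := by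
        rw [hFe, ← Real.rpow_natCast, ← Real.rpow_mul hN0.le]
      have e4 : ε ≤ N ^ (-(1 / 5000) * E₂ : ℝ) * N ^ (-(1 / 19000) * d : ℝ) := by
        rw [hεe, ← Real.rpow_add hN0]
        apply Real.rpow_le_rpow_of_exponent_le hN
        rw [hd, hE₂]
        push_cast
        linarith
      calc K₂ * ε ≤ K₃ ^ d * (N ^ (-(1 / 5000) * E₂ : ℝ) * N ^ (-(1 / 19000) * d : ℝ)) :=
            mul_le_mul e2 e4 hε0.le (by positivity)
        _ = N ^ (-(1 / 5000) * E₂ : ℝ) * (K₃ ^ d * F ^ d) := by rw [e3]; ring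
        _ ≤ μ ^ E₂ * (K₃ ^ d * F ^ d) := mul_le_mul_of_nonneg_right e1 (by positivity)
        _ = μ ^ E₂ * Γ ^ d := by rw [hΓe, mul_pow]
    have hlt : μ ^ E₂ * Γ ^ d < μ ^ E₂ * g ^ d :=
      mul_lt_mul_of_pos_left (pow_lt_pow_left₀ hgΓ hΓ0.le (by omega)) (by positivity)
    linarith
  · -- total
    refine hmain.trans ?_
    have hA1 : (((nb - na : ℤ) : ℝ) / L + 1) ≤ 161 * (N / w) := by
      have e2 : ((nb - na : ℤ) : ℝ) / L ≤ 160 * (N / w) := by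
        rw [div_le_iff₀ hL0']
        calc ((nb - na : ℤ) : ℝ) ≤ 80 * N := hlen
          _ = 80 * (N / w) * w := by field_simp
          _ ≤ 80 * (N / w) * (2 * L) := mul_le_mul_of_nonneg_left hwL (by positivity)
          _ = 160 * (N / w) * L := by ring
      have e3 : 1 ≤ N / w := by rwa [one_le_div hw0]
      linarith
    have hp1 : (((nb - na : ℤ) : ℝ) / L + 1) * G ≤
        161 * K₁ * Cw * (B0 ^ 2 * F + B0 * B1 * F') * N := by
      have e1 : N / w * w ^ (1 - (1 / 2) ^ (j + 1 + 1) : ℝ) =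
          N * w ^ (-((1 / 2) ^ (j + 1 + 1)) : ℝ) := by
        rw [sub_eq_add_neg, Real.rpow_add hw0, Real.rpow_one]
        field_simp
      obtain ⟨S, hS⟩ : ∃ S : ℝ, S = w ^ (-((1 / 2) ^ (j + 1 + 1)) : ℝ) := ⟨_, rfl⟩
      rw [← hS] at e1 hsave hsave1
      have hS0 : 0 ≤ S := by rw [hS]; exact Real.rpow_nonneg hw0.le _
      have e2 : w / N * S ≤ F' := by
        calc w / N * S ≤ w / N * 1 := mul_le_mul_of_nonneg_left hsave1 (by positivity)
          _ = w / N := mul_one _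
          _ ≤ ε := by
              rw [div_le_iff₀ hN0]
              linarith
          _ ≤ F' := hεF'
      have e3 : (B0 * (B0 + B1 * (w / N))) * S ≤ Cw * (B0 ^ 2 * F + B0 * B1 * F') := by
        calc (B0 * (B0 + B1 * (w / N))) * S = B0 ^ 2 * S + B0 * B1 * (w / N * S) := by ring
          _ ≤ B0 ^ 2 * (Cw * F) + B0 * B1 * F' :=
              add_le_add (mul_le_mul_of_nonneg_left hsave (by positivity))
                (mul_le_mul_of_nonneg_left e2 hBB)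
          _ ≤ B0 ^ 2 * (Cw * F) + Cw * (B0 * B1 * F') := by
              have : B0 * B1 * F' ≤ Cw * (B0 * B1 * F') :=
                le_mul_of_one_le_left (by positivity) hC1
              linarith
          _ = _ := by ring
      calc (((nb - na : ℤ) : ℝ) / L + 1) * G ≤ (161 * (N / w)) * G :=
            mul_le_mul_of_nonneg_right hA1 hG0
        _ = 161 * K₁ * (B0 * (B0 + B1 * (w / N))) *
            (N / w * w ^ (1 - (1 / 2) ^ (j + 1 + 1) : ℝ)) := by rw [hGe]; ring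
        _ = 161 * K₁ * ((B0 * (B0 + B1 * (w / N))) * S) * N := by rw [e1]; ring
        _ ≤ 161 * K₁ * (Cw * (B0 ^ 2 * F + B0 * B1 * F')) * N := by gcongr
        _ = _ := by ring
    have hp2 : (d : ℝ) * s * L * (B0 * B0) ≤ d * (K₃ + 2) * (B0 ^ 2 * F) * N := by
      calc (d : ℝ) * s * L * (B0 * B0) = d * (s * L) * B0 ^ 2 := by ring
        _ ≤ d * (Γ * N + 2 * w) * B0 ^ 2 := by gcongr
        _ ≤ d * (K₃ * F * N + 2 * (N * F)) * B0 ^ 2 := by
            rw [hΓe]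
            have : w ≤ N * F := hwNε.trans (mul_le_mul_of_nonneg_left hεF hN0.le)
            gcongr
        _ = _ := by ring
    have hp3 : d * (K₃ + 2) * (B0 ^ 2 * F) * N ≤
        d * (K₃ + 2) * (B0 ^ 2 * F + B0 * B1 * F') * N := by
      apply mul_le_mul_of_nonneg_right _ hN0.le
      apply mul_le_mul_of_nonneg_left _ (by positivity)
      have : 0 ≤ B0 * B1 * F' := by positivity
      linarith
    refine (add_le_add hp1 (hp2.trans hp3)).trans ?_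
    have hY : 0 ≤ (B0 ^ 2 * F + B0 * B1 * F') * N := by positivity
    have hKc : 161 * K₁ * Cw + d * (K₃ + 2) ≤ K := by
      rw [hK]
      have : 0 ≤ 81 * Cw + 81 * K₃ := by positivity
      linarith
    calc 161 * K₁ * Cw * (B0 ^ 2 * F + B0 * B1 * F') * N +
          d * (K₃ + 2) * (B0 ^ 2 * F + B0 * B1 * F') * N =
        (161 * K₁ * Cw + d * (K₃ + 2)) * ((B0 ^ 2 * F + B0 * B1 * F') * N) := by ring
      _ ≤ K * ((B0 ^ 2 * F + B0 * B1 * F') * N) := mul_le_mul_of_nonneg_right hKc hY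
      _ = _ := by ring

end Pool.Agent.H36.XD
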