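import Mathlib
import Pool.Agent.H19.Sup.P1
import Pool.Agent.H36.XD.St

set_option autoImplicit false

/-!
# P1: the sum over one line of a plane, explicit exponents

As `Pool.Agent.H19.Sup.P1`.  `Nj = N / max s (|j| / (y N))` lies between `√N / 40` and `N`.  Below an absolute
constant `W` the trivial bound (at most `66 Nj + 1 ≤ 106 Nj` terms, each `≤ B0²`) suffices.  For `Nj ≥ W` let `k`
be minimal with `T / (2 π) ≤ Nj ^ (k - 9/10)`; then `T / (2 π) > Nj ^ (k - 19/10)`; `k ≥ 4` since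
`T ≥ N ^ (7/2) ≥ Nj ^ (7/2)`, and `k ≤ 13` since `T ≤ N ^ 6 ≤ (1600 Nj²)^6`.  Since `N ≤ (40 Nj)²`, the hypotheses
`N ^ (-1/20000) ≤ μ, ρ` give `Nj ^ (-1/5000) ≤ 3 μ / 5, ρ`.
-/

namespace Pool.Agent.H36.XD

open Polynomial
open Pool.Agent.H19.Sup

/-- the bound of `LineSumX` with given constant -/
def P1_LBX (k : ℕ) (K : ℝ) : Prop :=
    ∀ (p : Par) (μ : ℝ), p.Good μ → ∀ (A : ℝ → ℂ) (B0 B1 ρ T N u0 : ℝ) (na nb : ℤ),
    Amp A B0 B1 ρ → 0 < ρ → ρ ≤ 1 → 1 ≤ N →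
    N ^ (-(1 / 5000) : ℝ) ≤ μ → N ^ (-(1 / 5000) : ℝ) ≤ ρ →
    N ^ (-2 : ℝ) ≤ T / (2 * Real.pi * N ^ k) → T / (2 * Real.pi * N ^ k) ≤ N ^ (-(9 / 10) : ℝ) →
    (∀ n : ℤ, na ≤ n → n ≤ nb → |u0 + n / N| ≤ 40 ∧ 1 ≤ p.n.eval (u0 + n / N)) →
    ‖∑ n ∈ Finset.Icc na nb, p.term A T N u0 n‖ ≤
      K * (B0 ^ 2 * N ^ (-(1 / 19000) : ℝ) + B0 * B1 * N ^ (-(1 / 20) : ℝ)) * N

theorem P1_LBX_mono {k : ℕ} {K K' : ℝ} (h : P1_LBX k K) (hK : K ≤ K') : P1_LBX k K' := by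
  intro p μ hp A B0 B1 ρ T N u0 na nb hA hρ hρ1 hN h1 h2 h3 h4 h5
  refine (h p μ hp A B0 B1 ρ T N u0 na nb hA hρ hρ1 hN h1 h2 h3 h4 h5).trans ?_
  have hB0 := P1_B0 hA
  have hB1 := P1_B1 hA
  have hN0 : 0 < N := by linarith
  gcongr

theorem P1_commonX (line_sum : LineSumX) (m : ℕ) (hm : m ≤ 13) : ∃ K : ℝ, 0 < K ∧
    ∀ k, 4 ≤ k → k ≤ m → P1_LBX k K := by
  induction m with
  | zero => exact ⟨1, one_pos, fun k h1 h2 => by omega⟩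
  | succ m ih =>
    obtain ⟨K, hK, h⟩ := ih (by omega)
    by_cases hm4 : 4 ≤ m + 1
    · obtain ⟨K', hK', h'⟩ := line_sum (m + 1) hm4 hm
      refine ⟨max K K', lt_max_of_lt_left hK, fun k hk1 hk2 => ?_⟩
      rcases Nat.lt_or_ge m k with hmk | hmk
      · obtain rfl : k = m + 1 := by omega
        exact P1_LBX_mono (K := K') h' (le_max_right _ _)
      · exact P1_LBX_mono (h k hk1 hmk) (le_max_left _ _)
    · exact ⟨K, hK, fun k h1 h2 => by omega⟩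

/-- the absolute constant below which the trivial bound is used -/
theorem P1_W : ∃ W : ℝ, 1 ≤ W ∧ ∀ x : ℝ, W ≤ x → 1 ≤ x ∧
    (1600 : ℝ) ^ 6 ≤ x ^ (1 / 10 : ℝ) ∧ 8 < x ^ (7 / 5 : ℝ) ∧
      (40 : ℝ) ^ (1 / 10000 : ℝ) * (5 / 3) ≤ x ^ (1 / 10000 : ℝ) := by
  have h1 : ∀ᶠ x : ℝ in Filter.atTop, (1600 : ℝ) ^ 6 ≤ x ^ (1 / 10 : ℝ) :=
    (tendsto_rpow_atTop (by norm_num)).eventually_ge_atTop _
  have h2 : ∀ᶠ x : ℝ in Filter.atTop, (8 : ℝ) < x ^ (7 / 5 : ℝ) :=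
    (tendsto_rpow_atTop (by norm_num)).eventually_gt_atTop _
  have h3 : ∀ᶠ x : ℝ in Filter.atTop,
      (40 : ℝ) ^ (1 / 10000 : ℝ) * (5 / 3) ≤ x ^ (1 / 10000 : ℝ) :=
    (tendsto_rpow_atTop (by norm_num)).eventually_ge_atTop _
  obtain ⟨W, hW⟩ := Filter.eventually_atTop.mp (h1.and (h2.and h3))
  refine ⟨max 1 W, le_max_left _ _, fun x hx => ⟨(le_max_left _ _).trans hx, ?_⟩⟩
  exact hW x ((le_max_right _ _).trans hx)

/-- choice of the order of the derivative -/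
theorem P1_kX {N Nj T : ℝ} (hN : 1 ≤ N) (hT : N ^ 7 ≤ T ^ 2) (hT1 : 1 ≤ T) (hT6 : T ≤ N ^ 6)
    (h1 : √N / 40 ≤ Nj) (h2 : Nj ≤ N) (hNj1 : 1 ≤ Nj)
    (hW1 : (1600 : ℝ) ^ 6 ≤ Nj ^ (1 / 10 : ℝ)) (hW2 : 8 < Nj ^ (7 / 5 : ℝ)) :
    ∃ k : ℕ, 4 ≤ k ∧ k ≤ 13 ∧ Nj ^ (-2 : ℝ) ≤ T / (2 * Real.pi * Nj ^ k) ∧
      T / (2 * Real.pi * Nj ^ k) ≤ Nj ^ (-(9 / 10) : ℝ) := by
  have hN0 : 0 < N := by linarith
  have hNj0 : 0 < Nj := by linarith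
  have hpi := Real.pi_gt_three
  have hpi4 := Real.pi_le_four
  have hT0 : 0 < T := by linarith
  have hP13 : T / (2 * Real.pi) ≤ Nj ^ (((13 : ℕ) : ℝ) - 9 / 10) := by
    have e1 : T / (2 * Real.pi) ≤ T := by
      apply div_le_self hT0.le
      linarith
    have e2 : N ≤ 1600 * Nj ^ 2 := by
      have h3 : √N ≤ 40 * Nj := by linarith
      calc N = √N ^ 2 := (Real.sq_sqrt hN0.le).symm
        _ ≤ (40 * Nj) ^ 2 := by gcongr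
        _ = 1600 * Nj ^ 2 := by ring
    calc T / (2 * Real.pi) ≤ N ^ 6 := e1.trans hT6
      _ ≤ (1600 * Nj ^ 2) ^ 6 := by gcongr
      _ = 1600 ^ 6 * Nj ^ 12 := by ring
      _ ≤ Nj ^ (1 / 10 : ℝ) * Nj ^ 12 := by gcongr
      _ = Nj ^ (1 / 10 : ℝ) * Nj ^ (12 : ℝ) := by norm_cast
      _ = Nj ^ (((13 : ℕ) : ℝ) - 9 / 10) := by
        rw [← Real.rpow_add hNj0]
        norm_num
  have hP3 : ∀ r : ℝ, r ≤ 21 / 10 → Nj ^ r < T / (2 * Real.pi) := by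
    intro r hr
    have e0 : Nj ^ (7 / 2 : ℝ) ≤ T := by
      have e : (Nj ^ (7 / 2 : ℝ)) ^ 2 ≤ T ^ 2 := by
        calc (Nj ^ (7 / 2 : ℝ)) ^ 2 = Nj ^ 7 := by
              rw [← Real.rpow_natCast (Nj ^ (7 / 2 : ℝ)) 2, ← Real.rpow_mul hNj0.le,
                ← Real.rpow_natCast Nj 7]
              norm_num
          _ ≤ N ^ 7 := by gcongr
          _ ≤ T ^ 2 := hT
      exact (sq_le_sq₀ (by positivity) hT0.le).mp e
    have e1 : Nj ^ r ≤ Nj ^ (21 / 10 : ℝ) := Real.rpow_le_rpow_of_exponent_le hNj1 hr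
    have e2 : Nj ^ (21 / 10 : ℝ) * (2 * Real.pi) < Nj ^ (7 / 2 : ℝ) := by
      have e4 : 2 * Real.pi < Nj ^ (7 / 5 : ℝ) := by linarith
      calc Nj ^ (21 / 10 : ℝ) * (2 * Real.pi) < Nj ^ (21 / 10 : ℝ) * Nj ^ (7 / 5 : ℝ) := by
            gcongr
        _ = Nj ^ (7 / 2 : ℝ) := by
            rw [← Real.rpow_add hNj0]
            norm_num
    calc Nj ^ r ≤ Nj ^ (21 / 10 : ℝ) := e1
      _ < T / (2 * Real.pi) := by
        rw [lt_div_iff₀ (by positivity)]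
        linarith
  classical
  have hex : ∃ k : ℕ, T / (2 * Real.pi) ≤ Nj ^ ((k : ℝ) - 9 / 10) := ⟨13, hP13⟩
  set k := Nat.find hex with hk
  have hks : T / (2 * Real.pi) ≤ Nj ^ ((k : ℝ) - 9 / 10) := Nat.find_spec hex
  have hk13 : k ≤ 13 := Nat.find_min' hex hP13
  have hk4 : 4 ≤ k := by
    by_contra hlt
    have hk3 : (k : ℝ) ≤ 3 := by
      have : k ≤ 3 := by omega
      exact_mod_cast this
    have := hP3 ((k : ℝ) - 9 / 10) (by linarith)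
    linarith
  have hkm : ¬ T / (2 * Real.pi) ≤ Nj ^ (((k - 1 : ℕ) : ℝ) - 9 / 10) :=
    Nat.find_min hex (by omega)
  have hkm' : Nj ^ ((k : ℝ) - 2) ≤ T / (2 * Real.pi) := by
    have e : ((k - 1 : ℕ) : ℝ) - 9 / 10 = (k : ℝ) - 19 / 10 := by
      rw [Nat.cast_sub (by omega)]
      push_cast
      ring
    rw [e] at hkm
    refine le_trans ?_ (not_le.mp hkm).le
    apply Real.rpow_le_rpow_of_exponent_le hNj1
    linarith
  have hd : T / (2 * Real.pi * Nj ^ k) = T / (2 * Real.pi) / Nj ^ (k : ℝ) := by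
    rw [Real.rpow_natCast, div_div]
  refine ⟨k, hk4, hk13, ?_, ?_⟩
  · rw [hd, le_div_iff₀ (by positivity), ← Real.rpow_add hNj0]
    have e : -2 + (k : ℝ) = (k : ℝ) - 2 := by ring
    rw [e]
    exact hkm'
  · rw [hd, div_le_iff₀ (by positivity), ← Real.rpow_add hNj0]
    have e : -(9 / 10 : ℝ) + (k : ℝ) = (k : ℝ) - 9 / 10 := by ring
    rw [e]
    exact hks

/-- the hypotheses on `μ` and `ρ`, seen from `Nj` -/
theorem P1_muX {N Nj μ : ℝ} (hN : 1 ≤ N) (h1 : √N / 40 ≤ Nj) (hNj1 : 1 ≤ Nj)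
    (hW3 : (40 : ℝ) ^ (1 / 10000 : ℝ) * (5 / 3) ≤ Nj ^ (1 / 10000 : ℝ))
    (hμ : N ^ (-(1 / 20000) : ℝ) ≤ μ) : Nj ^ (-(1 / 5000) : ℝ) ≤ 3 / 5 * μ := by
  have hN0 : 0 < N := by linarith
  have hNj0 : 0 < Nj := by linarith
  have e2 : N ≤ (40 * Nj) ^ (2 : ℝ) := by
    have h3 : √N ≤ 40 * Nj := by linarith
    calc N = √N ^ 2 := (Real.sq_sqrt hN0.le).symm
      _ ≤ (40 * Nj) ^ 2 := by gcongr
      _ = (40 * Nj) ^ (2 : ℝ) := by norm_cast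
  have e3 : (40 : ℝ) ^ (-(1 / 10000) : ℝ) * Nj ^ (-(1 / 10000) : ℝ) ≤ N ^ (-(1 / 20000) : ℝ) := by
    calc (40 : ℝ) ^ (-(1 / 10000) : ℝ) * Nj ^ (-(1 / 10000) : ℝ)
        = (40 * Nj) ^ (-(1 / 10000) : ℝ) := (Real.mul_rpow (by norm_num) hNj0.le).symm
      _ = ((40 * Nj) ^ (2 : ℝ)) ^ (-(1 / 20000) : ℝ) := by
        rw [← Real.rpow_mul (by positivity)]
        norm_num
      _ ≤ N ^ (-(1 / 20000) : ℝ) :=
        Real.rpow_le_rpow_of_nonpos hN0 e2 (by norm_num)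
  have h40 : (0 : ℝ) < (40 : ℝ) ^ (1 / 10000 : ℝ) := Real.rpow_pos_of_pos (by norm_num) _
  have hNp : (0 : ℝ) < Nj ^ (1 / 10000 : ℝ) := Real.rpow_pos_of_pos hNj0 _
  have e4 : Nj ^ (-(1 / 5000) : ℝ) = (Nj ^ (1 / 10000 : ℝ))⁻¹ * (Nj ^ (1 / 10000 : ℝ))⁻¹ := by
    rw [← Real.rpow_neg hNj0.le, ← Real.rpow_add hNj0]
    norm_num
  rw [Real.rpow_neg (by norm_num), Real.rpow_neg hNj0.le] at e3
  rw [e4]
  have e5 : (Nj ^ (1 / 10000 : ℝ))⁻¹ ≤ 3 / 5 * ((40 : ℝ) ^ (1 / 10000 : ℝ))⁻¹ := by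
    rw [inv_le_comm₀ hNp (by positivity), mul_inv, inv_inv]
    linarith
  calc (Nj ^ (1 / 10000 : ℝ))⁻¹ * (Nj ^ (1 / 10000 : ℝ))⁻¹
      ≤ (3 / 5 * ((40 : ℝ) ^ (1 / 10000 : ℝ))⁻¹) * (Nj ^ (1 / 10000 : ℝ))⁻¹ := by gcongr
    _ = 3 / 5 * (((40 : ℝ) ^ (1 / 10000 : ℝ))⁻¹ * (Nj ^ (1 / 10000 : ℝ))⁻¹) := by ring
    _ ≤ 3 / 5 * μ := by linarith

theorem plane_line_x (line_sum : LineSumX) : PlaneLineX := by
  obtain ⟨K, hK, hLB⟩ := P1_commonX line_sum 13 le_rfl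
  obtain ⟨W, hW1, hW⟩ := P1_W
  refine ⟨max K (106 * W ^ (1 / 19000 : ℝ)), lt_max_of_lt_left hK, ?_⟩
  intro A B0 B1 ρ T μ N M X Y X' Y' y a s j hA hρ hρ1 hμ hμ1 hN hμN hρN hT7 hT1 hT6 hY hY' hy hne
    hcov hs has hj hNj40
  set K' : ℝ := max K (106 * W ^ (1 / 19000 : ℝ)) with hK'
  have hK1 : K ≤ K' := le_max_left _ _
  have hK2 : 106 * W ^ (1 / 19000 : ℝ) ≤ K' := le_max_right _ _
  have hK0 : 0 < K' := lt_of_lt_of_le hK hK1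
  set Nj : ℝ := (N : ℝ) / max (s : ℝ) (|(j : ℝ)| / (y * N)) with hNj
  have hB0 := P1_B0 hA
  have hB1 := P1_B1 hA
  have hN1 : (1 : ℝ) ≤ N := by exact_mod_cast hN
  have hs1 : (1 : ℝ) ≤ s := by exact_mod_cast hs
  have hsqrt : 1 ≤ √(N : ℝ) := Real.one_le_sqrt.mpr hN1
  have hNj0 : (1 : ℝ) / 40 ≤ Nj := by linarith
  have hNjp : 0 < Nj := by linarith
  have hNjN : Nj ≤ N := by
    rw [hNj]
    apply div_le_self (by positivity)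
    exact hs1.trans (le_max_left _ _)
  have hW0 : 0 < W := by linarith
  by_cases h0 : LS A T N M X Y X' Y' y a s j = 0
  · rw [h0, norm_zero]
    positivity
  obtain ⟨p, na, nb, hp, hLS, hn⟩ := P1_line hA hμ hμ1 hN hY hY' hy hne hcov hs has hj hNj h0
  rw [hLS]
  rcases le_total Nj W with hsm | hbig
  · -- trivial bound
    have hcard : ((Finset.Icc na nb).card : ℝ) ≤ 66 * Nj + 1 := by
      rcases le_or_gt na nb with hab | hab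
      · rw [Int.card_Icc]
        have e1 : (((nb + 1 - na).toNat : ℕ) : ℝ) = (nb : ℝ) + 1 - na := by
          have : (((nb + 1 - na).toNat : ℕ) : ℤ) = nb + 1 - na := Int.toNat_of_nonneg (by linarith)
          have := congrArg (Int.cast : ℤ → ℝ) this
          push_cast at this
          exact_mod_cast this
        rw [e1]
        have e2 := (hn na le_rfl hab).1
        have e3 := (hn nb hab le_rfl).1
        rw [zero_add, abs_div, abs_of_pos hNjp, div_le_iff₀ hNjp] at e2 e3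
        have e4 := (abs_le.mp e2).1
        have e5 := (abs_le.mp e3).2
        linarith
      · rw [Finset.Icc_eq_empty (not_le.mpr hab)]
        simp only [Finset.card_empty, Nat.cast_zero]
        positivity
    have hc1 : (1 : ℝ) ≤ W ^ (1 / 19000 : ℝ) * Nj ^ (-(1 / 19000) : ℝ) := by
      have e1 : W ^ (-(1 / 19000) : ℝ) ≤ Nj ^ (-(1 / 19000) : ℝ) :=
        Real.rpow_le_rpow_of_nonpos hNjp hsm (by norm_num)
      calc (1 : ℝ) = W ^ (1 / 19000 : ℝ) * W ^ (-(1 / 19000) : ℝ) := by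
            rw [← Real.rpow_add hW0]
            norm_num
        _ ≤ W ^ (1 / 19000 : ℝ) * Nj ^ (-(1 / 19000) : ℝ) := by gcongr
    have h106 : 66 * Nj + 1 ≤ K' * Nj ^ (-(1 / 19000) : ℝ) * Nj := by
      calc 66 * Nj + 1 ≤ 106 * 1 * Nj := by linarith
        _ ≤ 106 * (W ^ (1 / 19000 : ℝ) * Nj ^ (-(1 / 19000) : ℝ)) * Nj := by gcongr
        _ = (106 * W ^ (1 / 19000 : ℝ)) * Nj ^ (-(1 / 19000) : ℝ) * Nj := by ring
        _ ≤ K' * Nj ^ (-(1 / 19000) : ℝ) * Nj := by gcongr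
    calc ‖∑ n ∈ Finset.Icc na nb, p.term A T Nj 0 n‖
        ≤ ∑ n ∈ Finset.Icc na nb, ‖p.term A T Nj 0 n‖ := norm_sum_le _ _
      _ ≤ ∑ n ∈ Finset.Icc na nb, B0 * B0 := Finset.sum_le_sum fun n _ => P1_osc_norm hA
      _ = (Finset.Icc na nb).card * (B0 * B0) := by rw [Finset.sum_const, nsmul_eq_mul]
      _ ≤ (66 * Nj + 1) * (B0 * B0) := by gcongr
      _ ≤ (K' * Nj ^ (-(1 / 19000) : ℝ) * Nj) * (B0 * B0) := by gcongr
      _ = K' * (B0 ^ 2 * Nj ^ (-(1 / 19000) : ℝ) + 0) * Nj := by ring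
      _ ≤ K' * (B0 ^ 2 * Nj ^ (-(1 / 19000) : ℝ) + B0 * B1 * Nj ^ (-(1 / 20) : ℝ)) * Nj := by
        gcongr
        positivity
  · obtain ⟨hNj1, hw1, hw2, hw3⟩ := hW Nj hbig
    obtain ⟨k, hk4, hk13, hk3, hk5⟩ := P1_kX hN1 hT7 hT1 hT6 hNj40 hNjN hNj1 hw1 hw2
    have hμj := P1_muX hN1 hNj40 hNj1 hw3 hμN
    have hρj : Nj ^ (-(1 / 5000) : ℝ) ≤ ρ := by
      have := P1_muX hN1 hNj40 hNj1 hw3 hρN
      linarith
    have key := hLB k hk4 hk13 p (3 / 5 * μ) hp A B0 B1 ρ T Nj 0 na nb hA hρ hρ1 hNj1 hμj hρj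
      hk3 hk5 (fun n h1 h2 => ⟨(hn n h1 h2).1.trans (by norm_num), (hn n h1 h2).2⟩)
    refine key.trans ?_
    gcongr

end Pool.Agent.H36.XD
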