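import Mathlib
import Pool.Agent.H36.XD.St
import Pool.Agent.H19.Sup.AP

set_option autoImplicit false

/-!
# AP (explicit numbers): the sum over all planes

Copy of `H19.Sup.all_planes_of` with the explicit saving `N ^ (-1/40000)` resp. `N ^ (-1/50)`.
-/

namespace Pool.Agent.H36.XD

open UpperHalfPlane
open Pool.Agent.H19.Maass
open Pool.Agent.H19.Sup
open scoped MatrixGroups

theorem all_planes_x (plane_sum : PlaneSumX) : AllPlanesX := by
  classical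
  obtain ⟨K1, hK1, hP⟩ := plane_sum
  intro Y0
  set m : ℝ := max Y0 2 with hm
  have hm2 : (2 : ℝ) ≤ m := le_max_right _ _
  refine ⟨162 * ((14 + 2 * m) * K1) + 840 * (14 + 2 * m), by positivity, ?_⟩
  intro A B0 B1 ρ T μ N M w w' z hA hρ hρ1 hμ hμ1 hN hμN hρN hT1 hT0 hT2 hz hz0 hw hw' hww G hG hM
  have hN0 : (1 : ℝ) ≤ N := by exact_mod_cast hN
  have hNpos : (0 : ℝ) < N := by linarith
  have hB0 : 0 ≤ B0 := (norm_nonneg _).trans (hA.bdd 0)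
  have hB1 : 0 ≤ B1 := by
    have := hA.lip 1 0
    simp only [sub_zero, abs_one, mul_one] at this
    exact (norm_nonneg _).trans this
  have hNc : 0 < (N : ℝ) ^ (-(1 / 40000) : ℝ) := Real.rpow_pos_of_pos hNpos _
  have hNd : 0 < (N : ℝ) ^ (-(1 / 50) : ℝ) := Real.rpow_pos_of_pos hNpos _
  set Q : ℝ := B0 ^ 2 * (μ + (N : ℝ) ^ (-(1 / 40000) : ℝ)) +
      B0 * B1 * (N : ℝ) ^ (-(1 / 50) : ℝ) with hQ
  have hQ0 : 0 ≤ Q := by positivity
  have hQ1 : B0 ^ 2 * (N : ℝ) ^ (-(1 / 40000) : ℝ) ≤ Q := by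
    have h1 : 0 ≤ B0 ^ 2 * μ := by positivity
    have h2 : 0 ≤ B0 * B1 * (N : ℝ) ^ (-(1 / 50) : ℝ) := by positivity
    rw [hQ]; nlinarith
  set f : (ℤ × ℤ) × (ℤ × ℤ) → ℂ := fun g => ZZ A T N M w w' z g.1 g.2 with hf
  have hsplit : ∑ g ∈ G, f g = ∑ g ∈ G with ht g.2 z ≤ 1, f g + ∑ g ∈ G with ¬ ht g.2 z ≤ 1, f g :=
    (Finset.sum_filter_add_sum_filter_not G (fun g => ht g.2 z ≤ 1) f).symm
  have hfnz : ∀ g : (ℤ × ℤ) × (ℤ × ℤ), f g ≠ 0 → 3 / 5 * ht g.2 z ≤ ht g.1 w :=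
    fun g hg => AP_nonzero hA hg
  -- the low planes
  have hlow : ‖∑ g ∈ G with ht g.2 z ≤ 1, f g‖ ≤
      (8 / (1 / (20 * N : ℝ)) + 2) * ((14 + 2 * max Y0 2) * (K1 * (N : ℝ) ^ 2 * Q)) := by
    refine AP_count hw hz hz0 f _ (by positivity) (by positivity) ?_ ?_ ?_
    · intro g hg
      exact hG g (Finset.mem_filter.1 hg).1
    · intro g _ hg0
      exact hfnz g hg0
    · intro g hg
      obtain ⟨hgG, hg1⟩ := Finset.mem_filter.1 hg
      obtain ⟨_, _, hg20⟩ := hG g hgG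
      simp only [hf]
      rw [ZZ_eq]
      refine (hP A B0 B1 ρ T μ N M _ _ _ _ _ hA hρ hρ1 hμ hμ1 hN hμN hρN hT1 hT0 hT2 (ht_pos g.1 w)
        (ht_pos g.1 w') hg20 hg1 (dist_coord hμ.le w w' hww g.1 _) ?_).trans (le_of_eq ?_)
      · intro q hq b hb
        refine hM g hgG q hq b ?_
        rw [dist_VV]
        exact hb
      · rw [← hQ]; ring
  -- the high planes
  have hhigh : ‖∑ g ∈ G with ¬ ht g.2 z ≤ 1, f g‖ ≤
      (8 / 1 + 2) * ((14 + 2 * max Y0 2) * (84 * (N : ℝ) ^ 2 * B0 ^ 2)) := by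
    refine AP_count hw hz hz0 f _ one_pos (by positivity) ?_ ?_ ?_
    · intro g hg
      obtain ⟨hgG, hg1⟩ := Finset.mem_filter.1 hg
      exact ⟨(hG g hgG).1, (hG g hgG).2.1, (not_le.1 hg1).le⟩
    · intro g _ hg0
      exact hfnz g hg0
    · intro g hg
      obtain ⟨hgG, hg1⟩ := Finset.mem_filter.1 hg
      exact AP_trivZZ hA hN (hG g hgG).2.2
  have hN3 : (N : ℝ) ^ 2 ≤ (N : ℝ) ^ 3 * (N : ℝ) ^ (-(1 / 40000) : ℝ) := by
    have h1 : (N : ℝ) ^ (-(1 : ℝ)) ≤ (N : ℝ) ^ (-(1 / 40000) : ℝ) :=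
      Real.rpow_le_rpow_of_exponent_le hN0 (by norm_num)
    rw [Real.rpow_neg_one] at h1
    calc (N : ℝ) ^ 2 = (N : ℝ) ^ 3 * (N : ℝ)⁻¹ := by field_simp
      _ ≤ _ := mul_le_mul_of_nonneg_left h1 (by positivity)
  have hcount : 8 / (1 / (20 * N : ℝ)) + 2 ≤ 162 * N := by
    rw [div_div_eq_mul_div, div_one]
    nlinarith
  have hfin : ‖∑ g ∈ G, f g‖ ≤ 162 * N * ((14 + 2 * m) * (K1 * (N : ℝ) ^ 2 * Q)) +
      10 * ((14 + 2 * m) * (84 * ((N : ℝ) ^ 3 * Q))) := by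
    rw [hsplit]
    refine (norm_add_le _ _).trans (add_le_add ?_ ?_)
    · refine hlow.trans (mul_le_mul_of_nonneg_right hcount (by positivity))
    · refine hhigh.trans ?_
      have h10 : (8 / 1 + 2 : ℝ) = 10 := by norm_num
      rw [h10]
      refine mul_le_mul_of_nonneg_left ?_ (by norm_num)
      refine mul_le_mul_of_nonneg_left ?_ (by positivity)
      have : 84 * (N : ℝ) ^ 2 * B0 ^ 2 ≤
          84 * ((N : ℝ) ^ 3 * (N : ℝ) ^ (-(1 / 40000) : ℝ)) * B0 ^ 2 := by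
        have := mul_le_mul_of_nonneg_right hN3 (by positivity : (0 : ℝ) ≤ B0 ^ 2)
        nlinarith
      refine this.trans ?_
      have h3 := mul_le_mul_of_nonneg_left hQ1 (by positivity : (0 : ℝ) ≤ (N : ℝ) ^ 3)
      nlinarith
  refine hfin.trans (le_of_eq ?_)
  ring

end Pool.Agent.H36.XD
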