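import Mathlib
import Pool.Agent.H36.XD.St
import Pool.Agent.H19.Sup.F1

set_option autoImplicit false

/-!
# F1: bound for the oscillating part, explicit exponents

The proof of `Pool.Agent.H19.Sup.far_bound_of` with the right side of `AllPlanesX`.
-/

namespace Pool.Agent.H36.XD

open UpperHalfPlane
open Pool.Agent.H19.Maass Pool.Agent.H19.Sup
open scoped MatrixGroups ComplexConjugate ENNReal

open Classical in
theorem far_bound_x (all_planes : AllPlanesX) : FarBoundX := by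
  intro Y0 ε hε
  obtain ⟨K3, hK3, hall⟩ := all_planes Y0
  obtain ⟨Kt, hKt, htriv⟩ := all_planes_triv Y0
  obtain ⟨C4, hC4, hpair⟩ := pair_count (ε / 2) (by positivity)
  obtain ⟨K1, hK1, hlow⟩ := low_count
  obtain ⟨K2, hK2, hhigh⟩ := high_pairs
  set Y1 := max Y0 1 with hY1
  have hY1p : 1 ≤ Y1 := le_max_right _ _
  refine ⟨K2 * Y1 ^ 2 + √(K1 * Y1 * (C4 * (1 + Y1) * Kt + 3969 * K3)), by positivity, ?_⟩
  intro A B0 B1 ρ T μ h0 N z S hA hρ hρ1 hμ1 hh0 hh9 hNY hN hμN' hρN hNT hT1 hTN hre him hzY hS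
  have hB0 := hA.B0_nonneg
  have hN0 : (0 : ℝ) < N := by exact_mod_cast hN
  have hNr : (1 : ℝ) ≤ N := by exact_mod_cast hN
  have hμ : 0 < μ := lt_of_lt_of_le (Real.rpow_pos_of_pos hN0 _) hμN'
  have hμN : 1 / (N : ℝ) ≤ μ := by
    refine le_trans ?_ hμN'
    rw [one_div, ← Real.rpow_neg_one]
    exact Real.rpow_le_rpow_of_exponent_le hNr (by norm_num)
  have hz0 := z.im_pos
  have hzY1 : z.im ≤ Y1 := hzY.trans (le_max_left _ _)
  have hB1 : 0 ≤ B1 := by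
    have := (norm_nonneg _).trans (hA.lip 1 0)
    simpa using this
  -- moving into the fundamental domain
  choose g hg1 hg2 _ using fun i : (Σ _ : ℕ, Σ _ : ℕ, ℕ) => exists_move' (zt z i)
  set W : (Σ _ : ℕ, Σ _ : ℕ, ℕ) → ℍ := fun i => g i • zt z i with hW
  obtain ⟨S', hS'⟩ := exists_cover (II N) W (zt z) (1 / 2)
  rw [F1_FF hA T N z g hS hS']
  set low := (II N).filter fun i => ¬ h0 < (g i • zt z i).im with hlowdef
  have hlowsub : low ⊆ II N := Finset.filter_subset _ _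
  rw [← Finset.sum_filter_add_sum_filter_not (II N) (fun i => h0 < (g i • zt z i).im)]
  have hh1 : 1 ≤ h0 := by linarith
  have hlog : 0 ≤ Real.log h0 := Real.log_nonneg hh1
  -- high part
  have hH := F1_high hA T hN z g S' _ (Finset.filter_subset _ _) (by positivity)
    (hhigh z hre him N hN h0 hh1 g (fun i _ => hg1 i))
  have hH2 : B0 / (N : ℝ) ^ 2 * (K2 * ((N : ℝ) ^ 6 * z.im ^ 2 / h0)) ≤
      K2 * Y1 ^ 2 * (N : ℝ) ^ 4 * (B0 / h0) := by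
    have e1 : z.im ^ 2 ≤ Y1 ^ 2 := pow_le_pow_left₀ hz0.le hzY1 2
    calc B0 / (N : ℝ) ^ 2 * (K2 * ((N : ℝ) ^ 6 * z.im ^ 2 / h0))
        = K2 * z.im ^ 2 * (N : ℝ) ^ 4 * (B0 / h0) := by field_simp
      _ ≤ _ := by gcongr
  -- low part
  have hWlow : ∀ i ∈ low, |(W i).re| ≤ 1 / 2 ∧ 1 / 2 ≤ (W i).im ∧ (W i).im ≤ h0 := by
    intro i hi
    exact ⟨hg1 i, hg2 i, not_lt.1 (Finset.mem_filter.1 hi).2⟩
  have hcs := F1_cs hA T hN z W S' low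
  have hcard := F1_card (by positivity) z W S' low hh1 hWlow (hlow z hre him N hN h0 hh1)
  set P := (II N ×ˢ S').filter fun s => ∃ i ∈ low, dist (W i) (s.2 • zt z s.1) < 1 / 2 with hP
  obtain ⟨G, M, hG1, hG2, hmaj⟩ := majorant low W (fun i => 1 / (i.1 : ℝ)) A T hA hN z hre him
    (by linarith) P (by
      intro s hs
      obtain ⟨hs1, i, hi, hd⟩ := Finset.mem_filter.1 hs
      refine ⟨(Finset.mem_product.1 hs1).1, fun γ => ?_⟩
      rw [dist_comm] at hd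
      have h1 := near_orbit hd.le (hWlow i hi).2.1 γ
      have h2 : max (W i).im 2 ≤ h0 := max_le (hWlow i hi).2.2 hh0
      linarith)
  set Q : ℝ := B0 ^ 2 * (μ + (N : ℝ) ^ (-(1 / 40000) : ℝ)) +
        B0 * B1 * (N : ℝ) ^ (-(1 / 50) : ℝ) with hQ
  have hQ0 : 0 ≤ Q := by positivity
  have hcl : ∑ i ∈ low, ∑ i' ∈ low, ic (dist (W i) (W i') ≤ μ) ≤
      ENNReal.ofReal (C4 * ((N : ℝ) ^ (6 + ε) * μ ^ 2) * (1 + z.im)) := by
    refine (F1_close hμ1 N z g low hlowsub).trans ?_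
    have := hpair z hre him N hN μ hμN hμ1
    rwa [show 2 * (ε / 2) = ε by ring] at this
  have hprs := F1_pairs hN W low hlowsub (μ := μ)
    (fun i i' => ∑ g ∈ G, ZZ A T N M (W i) (W i') z g.1 g.2)
    (V0 := Kt * (N : ℝ) ^ 3 * B0 ^ 2) (V1 := K3 * (N : ℝ) ^ 3 * Q)
    (C := C4 * ((N : ℝ) ^ (6 + ε) * μ ^ 2) * (1 + z.im))
    (by positivity) (by positivity) (by positivity)
    (fun i hi i' hi' => htriv A B0 B1 ρ T N M (W i) (W i') z hA hN him hzY (hWlow i hi).2.1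
      (hWlow i' hi').2.1 G hG1)
    (fun i hi i' hi' hd => hall A B0 B1 ρ T μ N M (W i) (W i') z hA hρ hρ1 hμ hμ1 hN hμN' hρN hNT hT1
      hTN him hzY (hWlow i hi).2.1 (hWlow i' hi').2.1 hd G hG1 (hG2 i hi)) hcl
  have hmul : (N : ℝ) ^ (6 + ε) = (N : ℝ) ^ 6 * (N : ℝ) ^ ε := by
    rw [Real.rpow_add hN0, Real.rpow_ofNat]
  set R : ℝ := (N : ℝ) ^ ε * μ ^ 2 * B0 ^ 2 + Q with hR
  have hR0 : 0 ≤ R := by positivity
  have hsq : ‖∑ i ∈ low, ∑ j ∈ II N, ((1 / (i.1 : ℝ) * (1 / (j.1 : ℝ)) : ℝ) : ℂ) *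
      ∑ σ ∈ S', wv A T (dist (W i) (σ • zt z j))‖ ^ 2 ≤
      (√(K1 * Y1 * (C4 * (1 + Y1) * Kt + 3969 * K3)) * (N : ℝ) ^ 4 *
        √((1 + Real.log h0) * R)) ^ 2 := by
    have e1 : (P.card : ℝ) / (N : ℝ) ^ 2 ≤ K1 * Y1 * N * (1 + Real.log h0) := by
      rw [div_le_iff₀ (by positivity)]
      refine hcard.trans ?_
      calc K1 * ((N : ℝ) ^ 3 * z.im) * (1 + Real.log h0)
          ≤ K1 * ((N : ℝ) ^ 3 * Y1) * (1 + Real.log h0) := by gcongr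
        _ = _ := by ring
    have e2 : 1 / (N : ℝ) ^ 2 * (C4 * ((N : ℝ) ^ (6 + ε) * μ ^ 2) * (1 + z.im) *
        (Kt * (N : ℝ) ^ 3 * B0 ^ 2) + (63 * (N : ℝ) ^ 3) ^ 2 * (K3 * (N : ℝ) ^ 3 * Q)) ≤
        (N : ℝ) ^ 7 * ((C4 * (1 + Y1) * Kt + 3969 * K3) * R) := by
      rw [hmul]
      have e3 : (N : ℝ) ^ ε * μ ^ 2 * B0 ^ 2 ≤ R := by rw [hR]; linarith
      have e4 : Q ≤ R := by
        have : 0 ≤ (N : ℝ) ^ ε * μ ^ 2 * B0 ^ 2 := by positivity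
        rw [hR]; linarith
      calc 1 / (N : ℝ) ^ 2 * (C4 * ((N : ℝ) ^ 6 * (N : ℝ) ^ ε * μ ^ 2) * (1 + z.im) *
          (Kt * (N : ℝ) ^ 3 * B0 ^ 2) + (63 * (N : ℝ) ^ 3) ^ 2 * (K3 * (N : ℝ) ^ 3 * Q))
          = (N : ℝ) ^ 7 * (C4 * (1 + z.im) * Kt * ((N : ℝ) ^ ε * μ ^ 2 * B0 ^ 2) + 3969 * K3 * Q) := by
            field_simp
            ring
        _ ≤ (N : ℝ) ^ 7 * (C4 * (1 + Y1) * Kt * R + 3969 * K3 * R) := by gcongr
        _ = _ := by ring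
    have e5 := hmaj.trans hprs
    rw [mul_pow, mul_pow, Real.sq_sqrt (by positivity), Real.sq_sqrt (by positivity)]
    calc _ ≤ _ := hcs
      _ ≤ (K1 * Y1 * N * (1 + Real.log h0)) *
          ((N : ℝ) ^ 7 * ((C4 * (1 + Y1) * Kt + 3969 * K3) * R)) :=
          mul_le_mul e1 (e5.trans e2) (Finset.sum_nonneg fun _ _ => by positivity) (by positivity)
      _ = _ := by ring
  have hL : ‖∑ i ∈ low, ∑ j ∈ II N, ((1 / (i.1 : ℝ) * (1 / (j.1 : ℝ)) : ℝ) : ℂ) *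
      ∑ σ ∈ S', wv A T (dist (W i) (σ • zt z j))‖ ≤
      √(K1 * Y1 * (C4 * (1 + Y1) * Kt + 3969 * K3)) * (N : ℝ) ^ 4 *
        √((1 + Real.log h0) * R) := by
    refine le_of_sq_le_sq ?_ (by positivity)
    exact hsq
  refine (norm_add_le _ _).trans ?_
  have hRdef : (N : ℝ) ^ ε * μ ^ 2 * B0 ^ 2 + B0 ^ 2 * (μ + (N : ℝ) ^ (-(1 / 40000) : ℝ)) +
        B0 * B1 * (N : ℝ) ^ (-(1 / 50) : ℝ) = R := by rw [hR, hQ]; ring
  rw [hRdef]
  set s1 := √(K1 * Y1 * (C4 * (1 + Y1) * Kt + 3969 * K3)) with hs1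
  set s2 := √((1 + Real.log h0) * R) with hs2
  have p1 : 0 ≤ s1 := Real.sqrt_nonneg _
  have p2 : 0 ≤ s2 := Real.sqrt_nonneg _
  calc _ ≤ K2 * Y1 ^ 2 * (N : ℝ) ^ 4 * (B0 / h0) + s1 * (N : ℝ) ^ 4 * s2 :=
        add_le_add (hH.trans hH2) hL
    _ ≤ (K2 * Y1 ^ 2 + s1) * (N : ℝ) ^ 4 * (B0 / h0 + s2) := by
        have q1 : 0 ≤ K2 * Y1 ^ 2 * (N : ℝ) ^ 4 * s2 := by positivity
        have q2 : 0 ≤ s1 * (N : ℝ) ^ 4 * (B0 / h0) := by positivity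
        nlinarith

end Pool.Agent.H36.XD
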