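import Mathlib
import Pool.Agent.H36.XD.St
import Pool.Agent.H19.Sup.F3
import Pool.Agent.H19.Maass.Forms
import Pool.Agent.H19.Maass.PrimeCount
import Pool.Agent.H19.Maass.Hyp
import Pool.Agent.H19.Maass.Sixth

set_option autoImplicit false

/-!
# F3 (module X10): the exponent 5/12 - 10^(-7)

A copy of `Pool.Agent.H19.Sup.F3` with explicit numbers: `N = ⌈T^(1/6 + θ)⌉`, `θ = 21 / 10^8`,
`ε = 1 / 10^8`, final exponent of `‖U z‖ ^ 2` equal to `5/6 - 2 / 10^7`.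
-/

namespace Pool.Agent.H36.XD

open UpperHalfPlane
open Pool.Agent.H19.Maass Pool.Agent.H19.Sup
open scoped MatrixGroups ComplexConjugate ENNReal

private theorem F3_core_x (small_improved : SmallImprovedX) : ∀ Y0 : ℝ, ∃ C : ℝ, 0 < C ∧
    ∀ T : ℝ, 1 ≤ T →
    ∀ (U : ℂ → ℂ) (c : ℕ → ℂ), Frm T U c → (∀ p : ℕ, p.Prime → c p ^ 2 = c (p ^ 2) + p) →
    ∀ z : ℍ, |z.re| ≤ 1 / 2 → 1 / 2 ≤ z.im → z.im ≤ Y0 →
      ‖U z‖ ^ 2 ≤ C * T ^ (5 / 6 - 2 / 10 ^ 7 : ℝ) := by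
  obtain ⟨Cl, hCl, hlarge⟩ := large_bound
  obtain ⟨Cw, hCw, hweyl⟩ := weyl_bound
  intro Y0
  have he0 : (0 : ℝ) < 1 / 10 ^ 8 := by norm_num
  obtain ⟨K, hK, hmain⟩ := small_improved Y0 (1 / 10 ^ 8) he0
  obtain ⟨cc, hcc, hcard⟩ := card_PR_ge (1 / 10 ^ 8) he0
  obtain ⟨e, he⟩ : ∃ e : ℝ, e = 1 / 10 ^ 8 := ⟨_, rfl⟩
  rw [← he] at he0 hmain hcard
  obtain ⟨d, hd⟩ : ∃ d : ℝ, d = 1 / 250000 := ⟨_, rfl⟩
  rw [← hd] at hmain
  obtain ⟨θ, hθ⟩ : ∃ θ : ℝ, θ = 21 / 10 ^ 8 := ⟨_, rfl⟩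
  have hθ0 : 0 < θ := by rw [hθ]; norm_num
  obtain ⟨η, hη⟩ : ∃ η : ℝ, η = 2 / 10 ^ 7 := ⟨_, rfl⟩
  rw [← hη]
  set Y1 := max Y0 1 with hY1
  have hY1p : 1 ≤ Y1 := le_max_right _ _
  set T₀ : ℝ := 2 ^ 40 with hT₀
  refine ⟨Cw * (1 + Y1) * T₀ + 16 * K / cc ^ 2 + 32 * Cl * (1 + Y1) / cc, by positivity, ?_⟩
  intro T hT U c hF hrel z hre him hzY
  have hT0 : 0 < T := by linarith
  have hz0 := z.im_pos
  have hzY1 : z.im ≤ Y1 := hzY.trans (le_max_left _ _)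
  set X := T ^ (5 / 6 - η) with hX
  have hX1 : 1 ≤ X := Real.one_le_rpow hT (by rw [hη]; norm_num)
  have hX0 : 0 < X := by linarith
  have c1 : 0 ≤ Cw * (1 + Y1) * T₀ := by positivity
  have c2 : 0 ≤ 16 * K / cc ^ 2 := by positivity
  have c3 : 0 ≤ 32 * Cl * (1 + Y1) / cc := by positivity
  by_cases hTT : T < T₀
  · have h1 := hweyl T hT Unit (fun _ => T) (fun _ => U) (fun _ => c) (fun _ => by simp)
      (fun _ => hF) (fun i j hij => absurd (Subsingleton.elim i j) hij) z hre him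
    simp only [Finset.univ_unique, Finset.sum_singleton] at h1
    calc ‖U z‖ ^ 2 ≤ Cw * (1 + z.im) * T := h1
      _ ≤ Cw * (1 + Y1) * T₀ := by gcongr
      _ ≤ (Cw * (1 + Y1) * T₀) * X := le_mul_of_one_le_right c1 hX1
      _ ≤ _ := by
          refine mul_le_mul_of_nonneg_right ?_ hX0.le
          linarith
  rw [not_lt] at hTT
  set τ := 1 / 6 + θ with hτ
  have hTτ : 1 ≤ T ^ τ := Real.one_le_rpow hT (by positivity)
  set N := ⌈T ^ τ⌉₊ with hN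
  have hN1 : T ^ τ ≤ N := Nat.le_ceil _
  have hN2 : (N : ℝ) ≤ 2 * T ^ τ := by
    have := (Nat.ceil_lt_add_one (by positivity : 0 ≤ T ^ τ)).le
    linarith
  have hNr : (1 : ℝ) ≤ N := hTτ.trans hN1
  have hN0 : (0 : ℝ) < N := by linarith
  have hNn : 1 ≤ N := by exact_mod_cast hNr
  have hTN6 : T ≤ (N : ℝ) ^ 6 := by
    calc T = T ^ (1 : ℝ) := (Real.rpow_one T).symm
      _ ≤ T ^ (τ * (6 : ℕ)) := Real.rpow_le_rpow_of_exponent_le hT (by push_cast; linarith)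
      _ = (T ^ τ) ^ 6 := by rw [Real.rpow_mul hT0.le, Real.rpow_natCast]
      _ ≤ (N : ℝ) ^ 6 := pow_le_pow_left₀ (by positivity) hN1 6
  have hN7T : (N : ℝ) ^ 7 ≤ T ^ 2 := by
    have h8 : (128 : ℝ) ≤ T ^ (1 / 4 : ℝ) := by
      have : ((2 : ℝ) ^ (40 : ℕ)) ^ (1 / 4 : ℝ) ≤ T ^ (1 / 4 : ℝ) :=
        Real.rpow_le_rpow (by positivity) hTT (by norm_num)
      refine le_trans ?_ this
      rw [← Real.rpow_natCast, ← Real.rpow_mul (by norm_num)]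
      norm_num
    calc (N : ℝ) ^ 7 ≤ (2 * T ^ τ) ^ 7 := pow_le_pow_left₀ hN0.le hN2 7
      _ = 128 * T ^ (τ * (7 : ℕ)) := by
          rw [mul_pow, Real.rpow_mul hT0.le, Real.rpow_natCast]; norm_num
      _ ≤ T ^ (1 / 4 : ℝ) * T ^ (τ * (7 : ℕ)) := by gcongr
      _ = T ^ (1 / 4 + τ * (7 : ℕ)) := by rw [Real.rpow_add hT0]
      _ ≤ T ^ ((2 : ℕ) : ℝ) := Real.rpow_le_rpow_of_exponent_le hT (by
          push_cast; rw [hτ, hθ]; norm_num)
      _ = T ^ 2 := Real.rpow_natCast T 2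
  set P := ((PR N).card : ℝ) with hP
  have hPc := hcard N hNn
  rw [← hP] at hPc
  have hNe : (0 : ℝ) < (N : ℝ) ^ e := by positivity
  have hQ : cc * (N : ℝ) ^ (1 - e) ≤ P := by
    rw [Real.rpow_sub hN0, Real.rpow_one]
    exact hPc
  have hQ0 : 0 < cc * (N : ℝ) ^ (1 - e) := by positivity
  have hP0 : 0 < P := lt_of_lt_of_le hQ0 hQ
  have hsT : √T = T ^ (1 / 2 : ℝ) := Real.sqrt_eq_rpow T
  by_cases hcase : ∑ p ∈ PR N, ‖c p‖ ^ 2 / p ≤ (PR N).card / 2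
  · have h1 := hmain N T hNn hN7T hT hTN6 U c hF hrel z hre him hzY hcase
    rw [← hP] at h1
    have h2 : (cc * (N : ℝ) ^ (1 - e)) ^ 2 * ‖U z‖ ^ 2 ≤
        K * ((N : ℝ) ^ e * (N * T + √T * (N : ℝ) ^ (4 - d))) := by
      calc (cc * (N : ℝ) ^ (1 - e)) ^ 2 * ‖U z‖ ^ 2 ≤ P ^ 2 * ‖U z‖ ^ 2 := by gcongr
        _ ≤ _ := h1
    have h3 : ‖U z‖ ^ 2 ≤ K / cc ^ 2 * ((N : ℝ) ^ (3 * e - 1) * T + T ^ (1 / 2 : ℝ) *
        (N : ℝ) ^ (2 - d + 3 * e)) := by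
      have hM : 0 < (cc * (N : ℝ) ^ (1 - e)) ^ 2 := by positivity
      rw [← le_div_iff₀' hM] at h2
      refine h2.trans (le_of_eq ?_)
      rw [hsT, mul_pow, ← Real.rpow_natCast ((N : ℝ) ^ (1 - e)) 2, ← Real.rpow_mul hN0.le]
      have e1 : (N : ℝ) ^ (3 * e - 1) = (N : ℝ) ^ e * N / (N : ℝ) ^ ((1 - e) * ((2 : ℕ) : ℝ)) := by
        rw [eq_div_iff (by positivity), ← Real.rpow_add hN0]
        nth_rewrite 3 [← Real.rpow_one (N : ℝ)]
        rw [← Real.rpow_add hN0]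
        congr 1
        push_cast; ring
      have e2 : (N : ℝ) ^ (2 - d + 3 * e) =
          (N : ℝ) ^ e * (N : ℝ) ^ (4 - d) / (N : ℝ) ^ ((1 - e) * ((2 : ℕ) : ℝ)) := by
        rw [eq_div_iff (by positivity), ← Real.rpow_add hN0, ← Real.rpow_add hN0]
        congr 1
        push_cast; ring
      rw [e1, e2]
      have : (N : ℝ) ^ ((1 - e) * ((2 : ℕ) : ℝ)) ≠ 0 := by positivity
      field_simp
    have h4 : (N : ℝ) ^ (3 * e - 1) * T ≤ 8 * X := by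
      have h5 := F3_pow (n := N) (τ := τ) (a := 3 * e - 1) (b := 5 / 6 - η - 1) hT hN1 hN2
        (by rw [he]; norm_num) (by rw [hτ, he, hθ, hη]; norm_num)
      calc (N : ℝ) ^ (3 * e - 1) * T ≤ (8 * T ^ (5 / 6 - η - 1)) * T := by gcongr
        _ = 8 * X := by
            rw [hX, Real.rpow_sub_one hT0.ne', mul_assoc, div_mul_cancel₀ _ hT0.ne']
    have h6 : T ^ (1 / 2 : ℝ) * (N : ℝ) ^ (2 - d + 3 * e) ≤ 8 * X := by
      have h5 := F3_pow (n := N) (τ := τ) (a := 2 - d + 3 * e) (b := 1 / 3 - η) hT hN1 hN2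
        (by rw [he, hd]; norm_num) (by rw [hτ, he, hd, hθ, hη]; norm_num)
      calc T ^ (1 / 2 : ℝ) * (N : ℝ) ^ (2 - d + 3 * e) ≤
            T ^ (1 / 2 : ℝ) * (8 * T ^ (1 / 3 - η)) := by gcongr
        _ = 8 * X := by
            rw [hX, mul_left_comm, ← Real.rpow_add hT0]
            congr 2
            ring
    calc ‖U z‖ ^ 2 ≤ K / cc ^ 2 * (8 * X + 8 * X) := h3.trans (by gcongr)
      _ = 16 * K / cc ^ 2 * X := by ring
      _ ≤ _ := by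
          refine mul_le_mul_of_nonneg_right ?_ hX0.le
          linarith
  · rw [not_le] at hcase
    have h1 := hlarge T hT T U c (by simp) hF z hre him N hNn
    have h2 : (cc * (N : ℝ) ^ (1 - e)) / 2 * ‖U z‖ ^ 2 ≤
        Cl * (1 + Y1) * (T + √T * (N : ℝ) ^ 2) := by
      calc (cc * (N : ℝ) ^ (1 - e)) / 2 * ‖U z‖ ^ 2 ≤ (∑ p ∈ PR N, ‖c p‖ ^ 2 / p) * ‖U z‖ ^ 2 := by
            refine mul_le_mul_of_nonneg_right ?_ (by positivity)
            rw [← hP] at hcase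
            linarith
        _ ≤ _ := h1
        _ ≤ _ := by gcongr
    have h3 : ‖U z‖ ^ 2 ≤ 2 * Cl * (1 + Y1) / cc * ((N : ℝ) ^ (e - 1) * T + T ^ (1 / 2 : ℝ) *
        (N : ℝ) ^ (1 + e)) := by
      have hM : 0 < (cc * (N : ℝ) ^ (1 - e)) / 2 := by positivity
      rw [← le_div_iff₀' hM] at h2
      refine h2.trans (le_of_eq ?_)
      rw [hsT]
      have e1 : (N : ℝ) ^ (e - 1) = 1 / (N : ℝ) ^ (1 - e) := by
        rw [eq_div_iff (by positivity), ← Real.rpow_add hN0]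
        norm_num
      have e2 : (N : ℝ) ^ (1 + e) = (N : ℝ) ^ 2 / (N : ℝ) ^ (1 - e) := by
        rw [eq_div_iff (by positivity), ← Real.rpow_natCast, ← Real.rpow_add hN0]
        congr 1
        push_cast; ring
      rw [e1, e2]
      have : (N : ℝ) ^ (1 - e) ≠ 0 := by positivity
      field_simp
    have h4 : (N : ℝ) ^ (e - 1) * T ≤ 8 * X := by
      have h5 := F3_pow (n := N) (τ := τ) (a := e - 1) (b := 5 / 6 - η - 1) hT hN1 hN2
        (by rw [he]; norm_num) (by rw [hτ, he, hθ, hη]; norm_num)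
      calc (N : ℝ) ^ (e - 1) * T ≤ (8 * T ^ (5 / 6 - η - 1)) * T := by gcongr
        _ = 8 * X := by
            rw [hX, Real.rpow_sub_one hT0.ne', mul_assoc, div_mul_cancel₀ _ hT0.ne']
    have h6 : T ^ (1 / 2 : ℝ) * (N : ℝ) ^ (1 + e) ≤ 8 * X := by
      have h5 := F3_pow (n := N) (τ := τ) (a := 1 + e) (b := 1 / 3 - η) hT hN1 hN2
        (by rw [he]; norm_num) (by rw [hτ, he, hθ, hη]; norm_num)
      calc T ^ (1 / 2 : ℝ) * (N : ℝ) ^ (1 + e) ≤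
            T ^ (1 / 2 : ℝ) * (8 * T ^ (1 / 3 - η)) := by gcongr
        _ = 8 * X := by
            rw [hX, mul_left_comm, ← Real.rpow_add hT0]
            congr 2
            ring
    calc ‖U z‖ ^ 2 ≤ 2 * Cl * (1 + Y1) / cc * (8 * X + 8 * X) := h3.trans (by gcongr)
      _ = 32 * Cl * (1 + Y1) / cc * X := by ring
      _ ≤ _ := by
          refine mul_le_mul_of_nonneg_right ?_ hX0.le
          linarith

theorem below_x (small_improved : SmallImprovedX) : BelowX := by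
  intro K hK hKU
  obtain ⟨Y, hY⟩ : ∃ Y : ℝ, ∀ z ∈ K, z.im + 1 / z.im ≤ Y := by
    have hcont : ContinuousOn (fun z : ℂ => z.im + 1 / z.im) K := by
      refine ContinuousOn.add Complex.continuous_im.continuousOn ?_
      refine ContinuousOn.div continuousOn_const Complex.continuous_im.continuousOn ?_
      intro z hz
      exact ne_of_gt (hKU hz)
    obtain ⟨Y, hY⟩ := (hK.image_of_continuousOn hcont).bddAbove
    exact ⟨Y, fun z hz => hY ⟨z, hz, rfl⟩⟩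
  obtain ⟨C, hC, hmain⟩ := F3_core_x small_improved Y
  refine ⟨√C, fun T hT U hU z hz => ?_⟩
  obtain ⟨c, hc, hrel⟩ := hU.exists_frm
  have hzim : 0 < z.im := hKU hz
  obtain ⟨w, hw1, hw2, hw3, hw4⟩ := exists_move ⟨z, hzim⟩
  have hwU : U w = U z := hw4 U hc.inv
  have h1 := hmain T hT U c hc hrel w hw1 hw2 (hw3.trans (hY z hz))
  rw [hwU] at h1
  have hT0 : 0 < T := by linarith
  refine le_of_sq_le_sq ?_ (by positivity)
  refine h1.trans (le_of_eq ?_)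
  rw [mul_pow, Real.sq_sqrt hC.le, ← Real.rpow_natCast (T ^ (5 / 12 - 1 / 10 ^ 7 : ℝ)) 2,
    ← Real.rpow_mul hT0.le]
  congr 2
  push_cast; norm_num

end Pool.Agent.H36.XD
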