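import Mathlib
import Pool.Agent.H36.XD.St
import Pool.Agent.H19.Sup.N5

set_option autoImplicit false

/-!
# N (X2): nondegeneracy of the phase with an explicit exponent

As `Pool.Agent.H19.Sup.N5`, but the complex root `u0` of `R1` is used with `|u0| ≤ 300 μ⁻¹`.
-/

namespace Pool.Agent.H36.XD

open Polynomial
open Pool.Agent.H19.Sup

/-- `PP` is large at a complex point of size at most `300 μ⁻¹` -/
theorem N_PP_lower (j : ℕ) : ∃ (K : ℝ), 0 < K ∧ ∀ (p : Par) (μ : ℝ), p.Good μ →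
    ∃ u0 : ℂ, ‖u0‖ ≤ 300 * μ⁻¹ ∧ μ ^ (18 * j + 9) ≤ K * ‖aeval u0 (p.PP j)‖ := by
  set c : ℝ := (3 / 5 * (3 / 100) ^ j) ^ 2 * (3 / 625) ^ (2 * j + 1) with hc
  have hcpos : 0 < c := by positivity
  refine ⟨c⁻¹, by positivity, fun p μ h => ?_⟩
  obtain ⟨u0, nn, w, hu0, hn, hm, hlow, hnw, hw⟩ := N3_base p μ h
  obtain ⟨hR, hR'⟩ := N3_R1 p u0 nn w hn hm hnw hw
  have hal := N3_al_lower p μ h u0 nn w hn hm hlow hR hR' j
  have hR2 := N3_R2_lower p μ h u0 nn hn hm hlow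
  have hμ := h.hμ
  refine ⟨u0, hu0, ?_⟩
  have e : aeval u0 (p.PP j) = (aeval u0 (p.al1 j)) ^ 2 * (aeval u0 p.R2) ^ (2 * j + 1) := by
    unfold Par.PP
    rw [map_sub, map_mul, map_mul, map_pow, map_pow, map_pow, map_pow, hR,
      zero_pow (by omega), mul_zero, sub_zero]
  rw [e, norm_mul, norm_pow, norm_pow]
  have h1 : (3 / 5 * μ ^ 2 * (3 / 100 * μ ^ 4) ^ j) ^ 2 * (3 / 625 * μ ^ 5) ^ (2 * j + 1) ≤
      ‖aeval u0 (p.al1 j)‖ ^ 2 * ‖aeval u0 p.R2‖ ^ (2 * j + 1) := by gcongr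
  have h2 : (3 / 5 * μ ^ 2 * (3 / 100 * μ ^ 4) ^ j) ^ 2 * (3 / 625 * μ ^ 5) ^ (2 * j + 1) =
      c * μ ^ (18 * j + 9) := by
    rw [hc, mul_pow, mul_pow, mul_pow, mul_pow, mul_pow, mul_pow, ← pow_mul, ← pow_mul,
      ← pow_mul, ← pow_mul, ← pow_mul]
    have : μ ^ (18 * j + 9) = μ ^ (2 * 2) * μ ^ (4 * (j * 2)) * μ ^ (5 * (2 * j + 1)) := by
      rw [← pow_add, ← pow_add]; congr 1; ring
    rw [this]; ring
  rw [h2] at h1
  rw [← div_eq_inv_mul, le_div_iff₀ hcpos]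
  linarith

theorem nondeg_x : NondegX := by
  intro j
  obtain ⟨K1, hK1, hsmall⟩ := N5_PP_small j
  obtain ⟨K3, hK3, hlow⟩ := N_PP_lower j
  refine ⟨K3 * ((((16 * j + 6 : ℕ) : ℝ) + 1) * K1 * 680 ^ (16 * j + 6)), by positivity, ?_⟩
  intro p μ hp g ε hg _ hε u hu hsep hn h1 h2 hH
  obtain ⟨u0, hu0, hPu0⟩ := hlow p μ hp
  have hμ := hp.hμ
  have hμ1 := hp.hμ1
  have hμinv : 1 ≤ μ⁻¹ := (one_le_inv₀ hμ).mpr hμ1
  set M : ℝ := 340 * μ⁻¹ with hM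
  have hM40 : 40 ≤ M := by linarith
  have hMpos : 0 < M := by linarith
  have hu0M : ‖u0‖ ≤ M := by linarith
  have hI := interp (p.PP j) (16 * j + 6) (PP_degree p j) u hg hM40 (mul_nonneg hK1.le hε) hu hsep
    (fun i => hsmall p μ hp ε (u i) (hu i) (hn i) (h1 i) (h2 i) (hH i)) u0 hu0M
  have hgd : 0 < g ^ (16 * j + 6) := pow_pos hg _
  have h3 : μ ^ (18 * j + 9) * g ^ (16 * j + 6) ≤
      K3 * ((((16 * j + 6 : ℕ) : ℝ) + 1) * (K1 * ε) * (2 * M) ^ (16 * j + 6)) := by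
    calc μ ^ (18 * j + 9) * g ^ (16 * j + 6) ≤ (K3 * ‖aeval u0 (p.PP j)‖) * g ^ (16 * j + 6) :=
          mul_le_mul_of_nonneg_right hPu0 hgd.le
      _ ≤ (K3 * ((((16 * j + 6 : ℕ) : ℝ) + 1) * (K1 * ε) * (2 * M / g) ^ (16 * j + 6))) *
            g ^ (16 * j + 6) := by
          apply mul_le_mul_of_nonneg_right _ hgd.le
          exact mul_le_mul_of_nonneg_left hI hK3.le
      _ = K3 * ((((16 * j + 6 : ℕ) : ℝ) + 1) * (K1 * ε) * (2 * M) ^ (16 * j + 6)) := by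
          rw [div_pow]
          field_simp
  have h4 : (2 * M) ^ (16 * j + 6) = 680 ^ (16 * j + 6) * (μ⁻¹) ^ (16 * j + 6) := by
    rw [← mul_pow, hM]
    congr 1
    ring
  have h5 : μ ^ (16 * j + 6) * (μ⁻¹) ^ (16 * j + 6) = 1 := by
    rw [← mul_pow, mul_inv_cancel₀ hμ.ne', one_pow]
  have h6 : 34 * j + 15 = (18 * j + 9) + (16 * j + 6) := by ring
  calc μ ^ (34 * j + 15) * g ^ (16 * j + 6)
      = μ ^ (16 * j + 6) * (μ ^ (18 * j + 9) * g ^ (16 * j + 6)) := by rw [h6, pow_add]; ring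
    _ ≤ μ ^ (16 * j + 6) * (K3 * ((((16 * j + 6 : ℕ) : ℝ) + 1) * (K1 * ε) *
          (2 * M) ^ (16 * j + 6))) := mul_le_mul_of_nonneg_left h3 (by positivity)
    _ = K3 * ((((16 * j + 6 : ℕ) : ℝ) + 1) * K1 * 680 ^ (16 * j + 6)) * ε *
          (μ ^ (16 * j + 6) * (μ⁻¹) ^ (16 * j + 6)) := by rw [h4]; ring
    _ = K3 * ((((16 * j + 6 : ℕ) : ℝ) + 1) * K1 * 680 ^ (16 * j + 6)) * ε := by
        rw [h5, mul_one]

end Pool.Agent.H36.XD
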