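import Mathlib
import Pool.Agent.H19.Sup.P2
import Pool.Agent.H36.XD.St

set_option autoImplicit false

/-!
# P2: the sum over a plane, with explicit exponents

The same proof as in `Pool.Agent.H19.Sup.P2`: the sum over a plane is the sum over the lines
`b s - a q = j`; the line `j = 0` and the lines with `|j| < μ s y N` are trivial, the others are
`PlaneLineX`.  `Q^(-1/19000) ≤ 40 N^(-1/38000)`, and the logarithm of the harmonic sum is absorbed in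
`N^(1/38000 - 1/40000) = N^(1/760000)`.
-/

namespace Pool.Agent.H36.XD

open Finset
open Pool.Agent.H19.Maass Pool.Agent.H19.Sup

private lemma x6_pow {N : ℕ} (hN : 1 ≤ N) {Q c : ℝ} (hc : 0 < c) (hc1 : c ≤ 1)
    (hNj : √(N : ℝ) / 40 ≤ Q) : Q ^ (-c) ≤ 40 * (N : ℝ) ^ (-(c / 2)) := by
  have hNR : (1 : ℝ) ≤ N := by exact_mod_cast hN
  have hsN0 : 0 < √(N : ℝ) := Real.sqrt_pos.2 (by positivity)
  calc Q ^ (-c) ≤ (√(N : ℝ) / 40) ^ (-c) :=
        Real.rpow_le_rpow_of_nonpos (by positivity) hNj (by linarith)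
    _ = (√(N : ℝ)) ^ (-c) * (40 : ℝ) ^ c := by
        rw [Real.div_rpow hsN0.le (by norm_num), Real.rpow_neg (by norm_num : (0 : ℝ) ≤ 40),
          div_inv_eq_mul]
    _ = (N : ℝ) ^ (-(c / 2)) * (40 : ℝ) ^ c := by
        rw [Real.sqrt_eq_rpow, ← Real.rpow_mul (by positivity)]
        congr 2; ring
    _ ≤ (N : ℝ) ^ (-(c / 2)) * 40 := by
        refine mul_le_mul_of_nonneg_left ?_ (by positivity)
        calc (40 : ℝ) ^ c ≤ 40 ^ (1 : ℝ) :=
              Real.rpow_le_rpow_of_exponent_le (by norm_num) hc1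
          _ = 40 := Real.rpow_one 40
    _ = _ := mul_comm _ _

/-- the bound for one line with `j ≠ 0` -/
private lemma x6_one {K1 : ℝ} (hK1 : 0 < K1)
    {A : ℝ → ℂ} {B0 B1 ρ T μ : ℝ} {N : ℕ} {M : ℤ} {X Y X' Y' y : ℝ} {a j : ℤ} {s : ℕ}
    (hA : Amp A B0 B1 ρ) (hN : 1 ≤ N)
    (hy0 : 1 / (20 * N : ℝ) ≤ y) (hs : 1 ≤ s) (has : Nat.Coprime a.natAbs s)
    (hsy : (s : ℝ) * √y ≤ 1) (hj0 : j ≠ 0) (hj : |(j : ℝ)| ≤ 8 * N * √y)
    (hl : μ * (((s : ℤ) : ℝ) * y * N) ≤ |(j : ℝ)| →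
      √(N : ℝ) / 40 ≤ N / max ((s : ℤ) : ℝ) (|(j : ℝ)| / (y * N)) →
      ‖LS A T N M X Y X' Y' y a s j‖ ≤
      K1 * (B0 ^ 2 * ((N : ℝ) / max ((s : ℤ) : ℝ) (|(j : ℝ)| / (y * N))) ^ (-(1 / 19000) : ℝ) +
        B0 * B1 * ((N : ℝ) / max ((s : ℤ) : ℝ) (|(j : ℝ)| / (y * N))) ^ (-(1 / 20) : ℝ)) *
        ((N : ℝ) / max ((s : ℤ) : ℝ) (|(j : ℝ)| / (y * N)))) :
    ‖LS A T N M X Y X' Y' y a s j‖ ≤
      (if |(j : ℝ)| < μ * (s * y * N) then (3 * N / s + 1) * B0 ^ 2 else 0) +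
      K1 * (B0 ^ 2 * (40 * (N : ℝ) ^ (-(1 / 38000) : ℝ)) +
        B0 * B1 * (40 * (N : ℝ) ^ (-(1 / 40) : ℝ))) * (y * N ^ 2 * |(j : ℝ)|⁻¹) := by
  have hNR : (1 : ℝ) ≤ N := by exact_mod_cast hN
  have hy : 0 < y := lt_of_lt_of_le (by positivity) hy0
  have hB0 := P2_B0 hA
  have hB1 := P2_B1 hA
  have hsR : (1 : ℝ) ≤ s := by exact_mod_cast hs
  have hjR : (0 : ℝ) < |(j : ℝ)| := abs_pos.2 (by exact_mod_cast hj0)
  have hsq : 0 < √y := Real.sqrt_pos.2 hy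
  have hyy : √y * √y = y := Real.mul_self_sqrt hy.le
  split_ifs with h
  · have h1 := P2_LS_triv hA T N M X Y X' Y' y (a := a) (s := s) j (by exact_mod_cast hs) (by
      rw [Int.isCoprime_iff_gcd_eq_one]
      simpa [Int.gcd] using has)
    have h2 : (0 : ℝ) ≤ K1 * (B0 ^ 2 * (40 * (N : ℝ) ^ (-(1 / 38000) : ℝ)) +
        B0 * B1 * (40 * (N : ℝ) ^ (-(1 / 40) : ℝ))) * (y * N ^ 2 * |(j : ℝ)|⁻¹) := by positivity
    push_cast at h1
    linarith
  · push Not at h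
    rw [zero_add]
    have hmax : 0 < max ((s : ℤ) : ℝ) (|(j : ℝ)| / (y * N)) :=
      lt_of_lt_of_le (by push_cast; linarith) (le_max_left _ _)
    have hsN : √(N : ℝ) * √(N : ℝ) = N := Real.mul_self_sqrt (by positivity)
    have hsN0 : 0 < √(N : ℝ) := Real.sqrt_pos.2 (by positivity)
    -- the square root of `y` is at least `1 / (5 √N)`
    have hys : 1 ≤ 5 * √(N : ℝ) * √y := by
      have h1 : (1 : ℝ) ≤ (5 * √(N : ℝ) * √y) ^ 2 := by
        have : (5 * √(N : ℝ) * √y) ^ 2 = 25 * (N * y) := by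
          rw [mul_pow, mul_pow, sq (√(N : ℝ)), sq (√y), hsN, hyy]; ring
        rw [this]
        have h2 : 1 / 20 ≤ N * y := by
          have := mul_le_mul_of_nonneg_left hy0 (by positivity : (0 : ℝ) ≤ N)
          have e : (N : ℝ) * (1 / (20 * N)) = 1 / 20 := by field_simp
          linarith
        linarith
      nlinarith [mul_pos (mul_pos (by norm_num : (0 : ℝ) < 5) hsN0) hsq]
    have hle : max ((s : ℤ) : ℝ) (|(j : ℝ)| / (y * N)) ≤ 40 * √(N : ℝ) := by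
      refine max_le ?_ ?_
      · push_cast
        have h1 : (s : ℝ) ≤ 5 * √(N : ℝ) := by
          calc (s : ℝ) = s * 1 := (mul_one _).symm
            _ ≤ s * (5 * √(N : ℝ) * √y) := mul_le_mul_of_nonneg_left hys (by positivity)
            _ = (s * √y) * (5 * √(N : ℝ)) := by ring
            _ ≤ 1 * (5 * √(N : ℝ)) := mul_le_mul_of_nonneg_right hsy (by positivity)
            _ = _ := one_mul _
        linarith
      · rw [div_le_iff₀ (by positivity)]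
        calc |(j : ℝ)| ≤ 8 * N * √y := hj
          _ = 8 * N * √y * 1 := (mul_one _).symm
          _ ≤ 8 * N * √y * (5 * √(N : ℝ) * √y) := mul_le_mul_of_nonneg_left hys (by positivity)
          _ = 40 * √(N : ℝ) * ((√y * √y) * N) := by ring
          _ = _ := by rw [hyy]
    have hNj : √(N : ℝ) / 40 ≤ N / max ((s : ℤ) : ℝ) (|(j : ℝ)| / (y * N)) := by
      rw [div_le_div_iff₀ (by norm_num) hmax]
      calc √(N : ℝ) * max ((s : ℤ) : ℝ) (|(j : ℝ)| / (y * N)) ≤ √(N : ℝ) * (40 * √(N : ℝ)) :=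
            mul_le_mul_of_nonneg_left hle hsN0.le
        _ = N * 40 := by linear_combination 40 * hsN
    have hl' := hl (by push_cast; exact h) hNj
    refine hl'.trans ?_
    have hNj0 : 0 < (N : ℝ) / max ((s : ℤ) : ℝ) (|(j : ℝ)| / (y * N)) := by positivity
    set Q := (N : ℝ) / max ((s : ℤ) : ℝ) (|(j : ℝ)| / (y * N)) with hQ
    have h5 : Q ^ (-(1 / 19000) : ℝ) ≤ 40 * (N : ℝ) ^ (-(1 / 38000) : ℝ) := by
      have := x6_pow hN (c := 1 / 19000) (by norm_num) (by norm_num) hNj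
      rw [show ((1 / 19000 : ℝ) / 2) = 1 / 38000 by norm_num] at this
      exact this
    have h5' : Q ^ (-(1 / 20) : ℝ) ≤ 40 * (N : ℝ) ^ (-(1 / 40) : ℝ) := by
      have := x6_pow hN (c := 1 / 20) (by norm_num) (by norm_num) hNj
      rw [show ((1 / 20 : ℝ) / 2) = 1 / 40 by norm_num] at this
      exact this
    have h6 : Q ≤ y * N ^ 2 * |(j : ℝ)|⁻¹ := by
      rw [hQ, div_le_iff₀ hmax]
      calc (N : ℝ) = y * N ^ 2 * |(j : ℝ)|⁻¹ * (|(j : ℝ)| / (y * N)) := by field_simp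
        _ ≤ _ := mul_le_mul_of_nonneg_left (le_max_right _ _) (by positivity)
    refine mul_le_mul ?_ h6 hNj0.le (by positivity)
    refine mul_le_mul_of_nonneg_left ?_ hK1.le
    exact add_le_add (mul_le_mul_of_nonneg_left h5 (sq_nonneg _))
      (mul_le_mul_of_nonneg_left h5' (mul_nonneg hB0 hB1))

private lemma x6_fin {n x u v k : ℝ} (hn : 0 ≤ n) (hx : 0 ≤ x) (hu : 0 ≤ u) (hv : 0 ≤ v)
    (hk : 0 ≤ k) :
    170 * n * x + (16 * n * u + k * n * (x + v)) ≤ (200 + k) * n * ((u + x) + v) := by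
  nlinarith [mul_nonneg hn hx, mul_nonneg hn hu, mul_nonneg hn hv, mul_nonneg hk (mul_nonneg hn hx),
    mul_nonneg hk (mul_nonneg hn hu)]

/-- the sum over a plane -/
theorem plane_sum_x (plane_line : PlaneLineX) : PlaneSumX := by
  obtain ⟨K1, hK1, hline⟩ := plane_line
  refine ⟨200 + 80 * K1 * (1 + 32 / (1 / 190000)), by positivity, ?_⟩
  intro A B0 B1 ρ T μ N M X Y X' Y' y hA hρ hρ1 hμ hμ1 hN hNμ hNρ hT hT1 hT' hY hY' hy0 hy1 hXY hcov
  have hNR : (1 : ℝ) ≤ N := by exact_mod_cast hN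
  have hy : 0 < y := lt_of_lt_of_le (by positivity) hy0
  have hB0 := P2_B0 hA
  have hB1 := P2_B1 hA
  have hsq : 0 < √y := Real.sqrt_pos.2 hy
  have hyy : √y * √y = y := Real.mul_self_sqrt hy.le
  obtain ⟨a, s, hs, has, hsy, happ⟩ := P2_dir X hy hy1
  have hsR : (1 : ℝ) ≤ s := by exact_mod_cast hs
  have hasI : IsCoprime a (s : ℤ) := by
    rw [Int.isCoprime_iff_gcd_eq_one]
    simpa [Int.gcd] using has
  set J : ℕ := ⌊8 * N * √y⌋₊ with hJdef
  have hJ : 8 * N * √y < ((J : ℤ) : ℝ) + 1 := by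
    push_cast; exact Nat.lt_floor_add_one _
  have hJle : (J : ℝ) ≤ 8 * N * √y := Nat.floor_le (by positivity)
  have hJ8 : J ≤ 8 * N := by
    have h1 : √y ≤ 1 := Real.sqrt_le_one.2 hy1
    have h2 : (J : ℝ) ≤ 8 * N := by nlinarith
    exact_mod_cast h2
  rw [P2_dec hA T N M hY hy hs has hsy happ hJ]
  refine (norm_sum_le _ _).trans ?_
  rw [P2_sumsym]
  set W := K1 * (B0 ^ 2 * (40 * (N : ℝ) ^ (-(1 / 38000) : ℝ)) +
        B0 * B1 * (40 * (N : ℝ) ^ (-(1 / 40) : ℝ))) * (y * N ^ 2)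
    with hW
  have hW0 : 0 ≤ W := by positivity
  set V := (3 * N / s + 1) * B0 ^ 2 with hV
  have hV0 : 0 ≤ V := by positivity
  set R := μ * (s * y * N) with hR
  have hR0 : 0 ≤ R := by positivity
  -- the lines `j ≠ 0`
  have hone : ∀ j : ℤ, j ≠ 0 → |(j : ℝ)| ≤ 8 * N * √y →
      ‖(if j = 0 ∧ (s : ℝ) ≤ √(1 / y) / 10 then 0 else LS A T N M X Y X' Y' y a s j)‖ ≤
      (if |(j : ℝ)| < R then V else 0) + W * |(j : ℝ)|⁻¹ := by
    intro j hj0 hj
    rw [if_neg (fun h => hj0 h.1)]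
    have h1 := x6_one (μ := μ) hK1 hA hN hy0 hs has hsy hj0 hj
      (fun h1 h2 => hline A B0 B1 ρ T μ N M X Y X' Y' y a s j hA hρ hρ1 hμ hμ1 hN hNμ hNρ hT hT1 hT'
        hY hY' hy hXY hcov (by exact_mod_cast hs) hasI h1 h2)
    refine h1.trans (le_of_eq ?_)
    rw [hW]; ring
  have hsum : ∑ k ∈ Icc 1 J,
      (‖(if ((k : ℕ) : ℤ) = 0 ∧ (s : ℝ) ≤ √(1 / y) / 10 then 0 else
          LS A T N M X Y X' Y' y a s ((k : ℕ) : ℤ))‖ +
        ‖(if (-((k : ℕ) : ℤ)) = 0 ∧ (s : ℝ) ≤ √(1 / y) / 10 then 0 else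
          LS A T N M X Y X' Y' y a s (-((k : ℕ) : ℤ)))‖) ≤
      2 * (R * V) + 2 * (W * (1 + Real.log (8 * N))) := by
    calc _ ≤ ∑ k ∈ Icc 1 J, (2 * (if ((k : ℕ) : ℝ) < R then V else 0) + 2 * (W * ((k : ℝ))⁻¹)) := by
          refine sum_le_sum fun k hk => ?_
          rw [mem_Icc] at hk
          have hk0 : (0 : ℝ) < k := by exact_mod_cast hk.1
          have hkJ : (k : ℝ) ≤ 8 * N * √y := le_trans (by exact_mod_cast hk.2) hJle
          have a1 : |(((k : ℕ) : ℤ) : ℝ)| = k := by push_cast; exact abs_of_pos hk0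
          have a2 : |((-((k : ℕ) : ℤ) : ℤ) : ℝ)| = k := by push_cast; rw [abs_neg]; exact abs_of_pos hk0
          have b1 := hone ((k : ℕ) : ℤ) (by omega) (by rw [a1]; exact hkJ)
          have b2 := hone (-((k : ℕ) : ℤ)) (by omega) (by rw [a2]; exact hkJ)
          rw [a1] at b1
          rw [a2] at b2
          linarith
      _ = 2 * ∑ k ∈ Icc 1 J, (if ((k : ℕ) : ℝ) < R then V else 0) +
          2 * (W * ∑ k ∈ Icc 1 J, ((k : ℝ))⁻¹) := by
          rw [sum_add_distrib, ← mul_sum, ← mul_sum, ← mul_sum]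
      _ ≤ _ := by
          have h1 := P2_cnt J hR0 hV0
          have h2 := mul_le_mul_of_nonneg_left (P2_harm J N hN hJ8) hW0
          linarith
  -- the line `j = 0`
  have hNcs : (N : ℝ) ^ (1 / 40000 : ℝ) ≤ √(N : ℝ) := by
    rw [Real.sqrt_eq_rpow]
    exact Real.rpow_le_rpow_of_exponent_le hNR (by norm_num)
  have hNm : (N : ℝ) ^ (-(1 / 40000) : ℝ) * (N : ℝ) ^ (1 / 40000 : ℝ) = 1 := by
    rw [← Real.rpow_add (by positivity)]; norm_num
  have hNm0 : 0 < (N : ℝ) ^ (-(1 / 40000) : ℝ) := by positivity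
  have hsN : √(N : ℝ) * √(N : ℝ) = N := Real.mul_self_sqrt (by positivity)
  have hsN0 : 0 < √(N : ℝ) := Real.sqrt_pos.2 (by positivity)
  have hNy : 1 / 20 ≤ N * y := by
    have := mul_le_mul_of_nonneg_left hy0 (by positivity : (0 : ℝ) ≤ N)
    have e : (N : ℝ) * (1 / (20 * N)) = 1 / 20 := by field_simp
    linarith
  have hys : 1 ≤ 5 * √(N : ℝ) * √y := by
    have h1 : (1 : ℝ) ≤ (5 * √(N : ℝ) * √y) ^ 2 := by
      have : (5 * √(N : ℝ) * √y) ^ 2 = 25 * (N * y) := by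
        rw [mul_pow, mul_pow, sq (√(N : ℝ)), sq (√y), hsN, hyy]; ring
      rw [this]
      linarith
    nlinarith [mul_pos (mul_pos (by norm_num : (0 : ℝ) < 5) hsN0) hsq]
  have hz : ‖(if (0 : ℤ) = 0 ∧ (s : ℝ) ≤ √(1 / y) / 10 then 0 else
      LS A T N M X Y X' Y' y a s 0)‖ ≤
      170 * ((N : ℝ) ^ 2 * y) * (B0 ^ 2 * (N : ℝ) ^ (-(1 / 40000) : ℝ)) := by
    split_ifs with h
    · rw [norm_zero]; positivity
    · clear hsum hone
      have hgt : √(1 / y) / 10 < s := by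
        by_contra hc
        push Not at hc
        exact h ⟨rfl, hc⟩
      have hinv : √(1 / y) = 1 / √y := by rw [one_div, Real.sqrt_inv, one_div]
      rw [hinv] at hgt
      have h1 := P2_LS_triv hA T N M X Y X' Y' y (a := a) (s := s) 0 (by exact_mod_cast hs) hasI
      push_cast at h1
      refine h1.trans ?_
      have h2 : 3 * (N : ℝ) / s ≤ 30 * N * √y := by
        rw [div_le_iff₀ (by positivity)]
        have h3 : 1 ≤ 10 * √y * s := by
          have := mul_le_mul_of_nonneg_left hgt.le (by positivity : (0 : ℝ) ≤ 10 * √y)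
          have e : 10 * √y * (1 / √y / 10) = 1 := by field_simp
          linarith
        calc 3 * (N : ℝ) = 3 * N * 1 := (mul_one _).symm
          _ ≤ 3 * N * (10 * √y * s) := mul_le_mul_of_nonneg_left h3 (by positivity)
          _ = _ := by ring
      have h4 : (N : ℝ) * √y ≤ 5 * ((N : ℝ) ^ 2 * y) * (N : ℝ) ^ (-(1 / 40000) : ℝ) := by
        have h5 : (1 : ℝ) ≤ (5 * N * √y) * (N : ℝ) ^ (-(1 / 40000) : ℝ) := by
          calc (1 : ℝ) = (N : ℝ) ^ (-(1 / 40000) : ℝ) * (N : ℝ) ^ (1 / 40000 : ℝ) := hNm.symm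
            _ ≤ (N : ℝ) ^ (-(1 / 40000) : ℝ) * √(N : ℝ) := mul_le_mul_of_nonneg_left hNcs hNm0.le
            _ ≤ (N : ℝ) ^ (-(1 / 40000) : ℝ) * (√(N : ℝ) * (5 * √(N : ℝ) * √y)) := by
                refine mul_le_mul_of_nonneg_left ?_ hNm0.le
                exact le_mul_of_one_le_right hsN0.le hys
            _ = (5 * (√(N : ℝ) * √(N : ℝ)) * √y) * (N : ℝ) ^ (-(1 / 40000) : ℝ) := by ring
            _ = _ := by rw [hsN]
        calc (N : ℝ) * √y = N * √y * 1 := (mul_one _).symm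
          _ ≤ N * √y * ((5 * N * √y) * (N : ℝ) ^ (-(1 / 40000) : ℝ)) :=
              mul_le_mul_of_nonneg_left h5 (by positivity)
          _ = 5 * ((N : ℝ) ^ 2 * (√y * √y)) * (N : ℝ) ^ (-(1 / 40000) : ℝ) := by ring
          _ = _ := by rw [hyy]
      have h6 : (1 : ℝ) ≤ 20 * ((N : ℝ) ^ 2 * y) * (N : ℝ) ^ (-(1 / 40000) : ℝ) := by
        have h7 : (N : ℝ) ^ (1 / 40000 : ℝ) ≤ N := by
          calc (N : ℝ) ^ (1 / 40000 : ℝ) ≤ (N : ℝ) ^ (1 : ℝ) :=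
                Real.rpow_le_rpow_of_exponent_le hNR (by norm_num)
            _ = N := Real.rpow_one _
        calc (1 : ℝ) = (N : ℝ) ^ (-(1 / 40000) : ℝ) * (N : ℝ) ^ (1 / 40000 : ℝ) := hNm.symm
          _ ≤ (N : ℝ) ^ (-(1 / 40000) : ℝ) * N := mul_le_mul_of_nonneg_left h7 hNm0.le
          _ ≤ (N : ℝ) ^ (-(1 / 40000) : ℝ) * (N * (20 * (N * y))) := by
              refine mul_le_mul_of_nonneg_left ?_ hNm0.le
              exact le_mul_of_one_le_right (by positivity) (by linarith)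
          _ = _ := by ring
      have h8 : 3 * (N : ℝ) / s + 1 ≤ 170 * ((N : ℝ) ^ 2 * y) * (N : ℝ) ^ (-(1 / 40000) : ℝ) := by
        linarith
      calc (3 * (N : ℝ) / s + 1) * B0 ^ 2 ≤
            (170 * ((N : ℝ) ^ 2 * y) * (N : ℝ) ^ (-(1 / 40000) : ℝ)) * B0 ^ 2 :=
            mul_le_mul_of_nonneg_right h8 (sq_nonneg _)
        _ = _ := by ring
  -- the three parts
  have hRV : 2 * (R * V) ≤ 16 * ((N : ℝ) ^ 2 * y) * (B0 ^ 2 * μ) := by
    have hs5 : (s : ℝ) ≤ 5 * N := P2_s5 hN (P2_s hN hy0 hsy)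
    have h2 : 2 * (R * V) = (6 * ((N : ℝ) ^ 2 * y) + 2 * (s * y * N)) * (B0 ^ 2 * μ) := by
      rw [hR, hV]; field_simp; ring
    rw [h2]
    refine mul_le_mul_of_nonneg_right ?_ (by positivity)
    have h3 : s * y * N ≤ 5 * ((N : ℝ) ^ 2 * y) := by
      calc s * y * N ≤ 5 * N * y * N := by gcongr
        _ = _ := by ring
    linarith
  have hWl : 2 * (W * (1 + Real.log (8 * N))) ≤
      80 * K1 * (1 + 32 / (1 / 190000)) * ((N : ℝ) ^ 2 * y) *
      (B0 ^ 2 * (N : ℝ) ^ (-(1 / 40000) : ℝ) + B0 * B1 * (N : ℝ) ^ (-(1 / 50) : ℝ)) := by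
    have hlog := P2_log (c := 1 / 190000) (by norm_num) (by norm_num) hN
    rw [show ((1 / 190000 : ℝ) / 4) = 1 / 760000 by norm_num] at hlog
    have h1 := mul_le_mul_of_nonneg_left hlog hW0
    have e : (N : ℝ) ^ (-(1 / 38000) : ℝ) * (N : ℝ) ^ (1 / 760000 : ℝ) =
        (N : ℝ) ^ (-(1 / 40000) : ℝ) := by
      rw [← Real.rpow_add (by positivity)]; congr 1; norm_num
    have e' : (N : ℝ) ^ (-(1 / 40) : ℝ) * (N : ℝ) ^ (1 / 760000 : ℝ) ≤
        (N : ℝ) ^ (-(1 / 50) : ℝ) := by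
      rw [← Real.rpow_add (by positivity)]
      exact Real.rpow_le_rpow_of_exponent_le hNR (by norm_num)
    have h2 : W * ((1 + 32 / (1 / 190000)) * (N : ℝ) ^ (1 / 760000 : ℝ)) =
        40 * K1 * (1 + 32 / (1 / 190000)) * ((N : ℝ) ^ 2 * y) *
        (B0 ^ 2 * ((N : ℝ) ^ (-(1 / 38000) : ℝ) * (N : ℝ) ^ (1 / 760000 : ℝ)) +
          B0 * B1 * ((N : ℝ) ^ (-(1 / 40) : ℝ) * (N : ℝ) ^ (1 / 760000 : ℝ))) := by
      rw [hW]; ring
    rw [e] at h2
    have h3 : 40 * K1 * (1 + 32 / (1 / 190000)) * ((N : ℝ) ^ 2 * y) *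
        (B0 ^ 2 * (N : ℝ) ^ (-(1 / 40000) : ℝ) +
          B0 * B1 * ((N : ℝ) ^ (-(1 / 40) : ℝ) * (N : ℝ) ^ (1 / 760000 : ℝ))) ≤
        40 * K1 * (1 + 32 / (1 / 190000)) * ((N : ℝ) ^ 2 * y) *
        (B0 ^ 2 * (N : ℝ) ^ (-(1 / 40000) : ℝ) + B0 * B1 * (N : ℝ) ^ (-(1 / 50) : ℝ)) := by
      refine mul_le_mul_of_nonneg_left ?_ (by positivity)
      have := mul_le_mul_of_nonneg_left e' (mul_nonneg hB0 hB1)
      linarith
    linarith
  have hfin : 170 * ((N : ℝ) ^ 2 * y) * (B0 ^ 2 * (N : ℝ) ^ (-(1 / 40000) : ℝ)) +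
      (16 * ((N : ℝ) ^ 2 * y) * (B0 ^ 2 * μ) +
        80 * K1 * (1 + 32 / (1 / 190000)) * ((N : ℝ) ^ 2 * y) *
      (B0 ^ 2 * (N : ℝ) ^ (-(1 / 40000) : ℝ) + B0 * B1 * (N : ℝ) ^ (-(1 / 50) : ℝ))) ≤
      (200 + 80 * K1 * (1 + 32 / (1 / 190000))) * ((N : ℝ) ^ 2 * y) *
        (B0 ^ 2 * (μ + (N : ℝ) ^ (-(1 / 40000) : ℝ)) +
        B0 * B1 * (N : ℝ) ^ (-(1 / 50) : ℝ)) := by
    have h := x6_fin (n := (N : ℝ) ^ 2 * y) (x := B0 ^ 2 * (N : ℝ) ^ (-(1 / 40000) : ℝ))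
      (u := B0 ^ 2 * μ) (v := B0 * B1 * (N : ℝ) ^ (-(1 / 50) : ℝ))
      (k := 80 * K1 * (1 + 32 / (1 / 190000))) (by positivity) (by positivity) (by positivity)
      (by positivity) (by positivity)
    refine h.trans (le_of_eq ?_)
    rw [mul_add (B0 ^ 2)]
  refine le_trans ?_ hfin
  linarith

end Pool.Agent.H36.XD
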