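import Mathlib
import Pool.Agent.H19.Sup.K5
import Pool.Agent.H36.XD.L3
import Pool.Agent.H36.XD.N
import Pool.Agent.H36.XD.L4
import Pool.Agent.H36.XD.P1
import Pool.Agent.H36.XD.P2
import Pool.Agent.H36.XD.AP
import Pool.Agent.H36.XD.F1
import Pool.Agent.H36.XD.F2
import Pool.Agent.H36.XD.F3

set_option autoImplicit false

/-!
# The steps put together, with explicit exponents
-/

namespace Pool.Agent.H36.XD

open Pool.Agent.H19.Maass

theorem line_sum : LineSumX := line_sum_x good_block_x nondeg_x

theorem plane_line : PlaneLineX := plane_line_x line_sum

theorem plane_sum : PlaneSumX := plane_sum_x plane_line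

theorem all_planes : AllPlanesX := all_planes_x plane_sum

theorem far_bound : FarBoundX := far_bound_x all_planes

theorem small_improved : SmallImprovedX := small_improved_x far_bound Pool.Agent.H19.Sup.split_kernel

theorem below : BelowX := below_x small_improved

end Pool.Agent.H36.XD
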